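import Pool.Agent.W12.MD.Base

/-!
The gradient of the almost linear part of the pressure (helper153, job 19).
-/

open MeasureTheory Set Metric
open scoped ContDiff ENNReal

namespace Pool.Agent.Y153.NS

open H459R3.NS W221.NS Pool.Agent.W12.MD

theorem df {f : V → ℝ} (hf : ContDiff ℝ ∞ f) : Differentiable ℝ f :=
  hf.differentiable (by simp)

theorem pd_sub {f g : V → ℝ} (hf : ContDiff ℝ ∞ f) (hg : ContDiff ℝ ∞ g) (i : Fin 3) (x : V) :
    pd i (fun x => f x - g x) x = pd i f x - pd i g x := by
  unfold pd
  rw [fderiv_fun_sub (df hf x) (df hg x)]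
  rfl

theorem opnorm_le {f : V → ℝ} {x : V} {G : ℝ} (hG : 0 ≤ G) (h : ∀ j, |pd j f x| ≤ G) :
    ‖fderiv ℝ f x‖ ≤ 3 * G := by
  refine ContinuousLinearMap.opNorm_le_bound _ (by positivity) fun v => ?_
  rw [fderiv_sum, Real.norm_eq_abs]
  calc |∑ j, v j * pd j f x| ≤ ∑ j, |v j * pd j f x| := Finset.abs_sum_le_sum_abs _ _
    _ ≤ ∑ _j : Fin 3, ‖v‖ * G := by
        refine Finset.sum_le_sum fun j _ => ?_
        rw [abs_mul]
        exact mul_le_mul (by simpa using norm_le_pi_norm v j) (h j) (abs_nonneg _) (norm_nonneg _)
    _ = 3 * G * ‖v‖ := by simp; ring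

theorem pd_th_zero (i : Fin 3) {z : V} (hz : z ∉ closedBall (0 : V) 1) : pd i th z = 0 := by
  have h1 : th =ᶠ[nhds z] fun _ => (0 : ℝ) := by
    filter_upwards [(isClosed_closedBall (x := (0 : V)) (ε := 1)).isOpen_compl.mem_nhds hz]
      with y hy
    exact th_zero fun h => hy (ball_subset_closedBall h)
  unfold pd
  rw [h1.fderiv_eq]
  simp

theorem pd_th_bdd : ∃ C : ℝ, 0 < C ∧ ∀ i z, |pd i th z| ≤ C := by
  have h : ∀ i : Fin 3, ∃ C, ∀ z ∈ closedBall (0 : V) 1, ‖pd i th z‖ ≤ C := fun i =>
    (isCompact_closedBall (0 : V) 1).exists_bound_of_continuousOn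
      (smooth_pd th_smooth i).continuous.continuousOn
  choose C hC using h
  refine ⟨1 + ∑ i, |C i|, by positivity, fun i z => ?_⟩
  have h2 : |C i| ≤ ∑ i, |C i| :=
    Finset.single_le_sum (f := fun i => |C i|) (fun i _ => abs_nonneg _) (Finset.mem_univ i)
  by_cases hz : z ∈ closedBall (0 : V) 1
  · have := hC i z hz
    rw [Real.norm_eq_abs] at this
    have h3 := le_abs_self (C i)
    linarith
  · rw [pd_th_zero i hz, abs_zero]
    have := abs_nonneg (C i)
    linarith

theorem ibp_th {f : V → ℝ} (hf : ContDiff ℝ ∞ f) (i : Fin 3) :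
    ∫ z, th z * pd i f z = -∫ z, pd i th z * f z := by
  have hc : HasCompactSupport th := by
    refine HasCompactSupport.intro (isCompact_closedBall (0 : V) 1) fun x hx => ?_
    exact th_zero fun h => hx (ball_subset_closedBall h)
  have i1 : Integrable (fun z => fderiv ℝ th z (Pi.single i 1) * f z) := by
    refine (((smooth_pd th_smooth i).continuous).mul
      hf.continuous).integrable_of_hasCompactSupport ?_
    refine HasCompactSupport.intro (isCompact_closedBall (0 : V) 1) fun x hx => ?_
    rw [Pi.mul_apply, pd_th_zero i hx, zero_mul]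
  have i2 : Integrable (fun z => th z * fderiv ℝ f z (Pi.single i 1)) :=
    th_mul_int (smooth_pd hf i).continuous
  have i3 : Integrable (fun z => th z * f z) := th_mul_int hf.continuous
  exact integral_mul_fderiv_eq_neg_fderiv_mul_of_integrable i1 i2 i3
    (fun x _ => df th_smooth x) (fun x _ => df hf x)

/-- Integrals against the derivatives of the weight. -/
theorem int_pd_th_le : ∃ C : ℝ, 0 < C ∧ ∀ (P : V → ℝ) (G : ℝ), ContDiff ℝ ∞ P → 0 ≤ G →
    ∫ x in ball (0 : V) 1, P x ^ 2 ≤ G ^ 2 → ∀ i, |∫ z, pd i th z * P z| ≤ C * G := by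
  obtain ⟨C, hC0, hC⟩ := pd_th_bdd
  have hvol : 0 ≤ (volume (ball (0 : V) 1)).toReal := ENNReal.toReal_nonneg
  refine ⟨C * ((volume (ball (0 : V) 1)).toReal + 1), by positivity,
    fun P G hP hG hI i => ?_⟩
  have hPc : Continuous P := hP.continuous
  -- the integral is over the unit ball
  have e1 : ∫ z, pd i th z * P z = ∫ z in ball (0 : V) 1, pd i th z * P z := by
    have e2 : ∫ z, pd i th z * P z = ∫ z in closedBall (0 : V) 1, pd i th z * P z := by
      rw [← integral_indicator isClosed_closedBall.measurableSet]
      congr 1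
      funext z
      by_cases hz : z ∈ closedBall (0 : V) 1
      · rw [indicator_of_mem hz]
      · rw [indicator_of_notMem hz, pd_th_zero i hz, zero_mul]
    rw [e2]
    refine setIntegral_congr_set ?_
    have h0 : volume (sphere (0 : V) 1) = 0 := Measure.addHaar_sphere _ _ _
    have hs : (ball (0 : V) 1) ∪ sphere (0 : V) 1 = closedBall (0 : V) 1 := ball_union_sphere
    rw [← hs]
    exact union_ae_eq_left_of_ae_eq_empty (ae_eq_empty.2 h0)
  rw [e1]
  calc |∫ z in ball (0 : V) 1, pd i th z * P z|
      ≤ ∫ z in ball (0 : V) 1, |pd i th z * P z| := by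
        simpa [Real.norm_eq_abs] using
          norm_integral_le_integral_norm (μ := volume.restrict (ball (0 : V) 1))
            (fun z => pd i th z * P z)
    _ ≤ ∫ z in ball (0 : V) 1, C * |P z| := by
        refine setIntegral_mono ?_ ?_ fun z => ?_
        · exact intB (((smooth_pd th_smooth i).continuous.mul hPc).abs) _ _
        · exact intB (continuous_const.mul hPc.abs) _ _
        · simp only []
          rw [abs_mul]
          exact mul_le_mul_of_nonneg_right (hC i z) (abs_nonneg _)
    _ = C * ∫ z in ball (0 : V) 1, |P z| := integral_const_mul _ _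
    _ ≤ C * (((volume (ball (0 : V) 1)).toReal + 1) * G) := by
        refine mul_le_mul_of_nonneg_left ?_ hC0.le
        -- `|P| ≤ (G + P² / G) / 2`
        rcases hG.eq_or_lt with h0 | hpos
        · -- G = 0
          have hz : ∫ x in ball (0 : V) 1, P x ^ 2 = 0 :=
            le_antisymm (by rw [← h0] at hI; simpa using hI)
              (integral_nonneg fun x => sq_nonneg _)
          have hae := (integral_eq_zero_iff_of_nonneg (fun x => sq_nonneg (P x))
            (intB (hPc.pow 2) _ _)).1 hz
          have : ∫ z in ball (0 : V) 1, |P z| = 0 := by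
            refine integral_eq_zero_of_ae ?_
            filter_upwards [hae] with x hx
            have hx' : P x ^ 2 = 0 := hx
            have : P x = 0 := by simpa using hx'
            simp [this]
          rw [this, ← h0]
          simp
        · have hb : ∫ z in ball (0 : V) 1, |P z|
              ≤ ∫ z in ball (0 : V) 1, (G + G⁻¹ * P z ^ 2) := by
            refine setIntegral_mono (intB hPc.abs _ _)
              (intB (continuous_const.add (continuous_const.mul (hPc.pow 2))) _ _) fun z => ?_
            show |P z| ≤ G + G⁻¹ * P z ^ 2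
            have h1 : 0 ≤ (G - |P z|) ^ 2 := sq_nonneg _
            have h2 : 0 ≤ |P z| := abs_nonneg _
            have h3 : P z ^ 2 = |P z| ^ 2 := (sq_abs _).symm
            rw [h3, ← sub_nonneg]
            have h4 : G + G⁻¹ * |P z| ^ 2 - |P z| = G⁻¹ * ((G - |P z|) ^ 2 + G * |P z|) := by
              field_simp
              ring
            rw [h4]
            positivity
          refine hb.trans ?_
          have ia : IntegrableOn (fun _ : V => G) (ball (0 : V) 1) := intB continuous_const _ _
          have ib : IntegrableOn (fun z : V => G⁻¹ * P z ^ 2) (ball (0 : V) 1) :=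
            intB (continuous_const.mul (hPc.pow 2)) _ _
          rw [integral_add ia ib, integral_const_mul]
          have h5 : ∫ _ in ball (0 : V) 1, G = (volume (ball (0 : V) 1)).toReal * G := by
            rw [setIntegral_const]
            simp [Measure.real]
          rw [h5]
          have h6 : G⁻¹ * ∫ x in ball (0 : V) 1, P x ^ 2 ≤ G := by
            calc G⁻¹ * ∫ x in ball (0 : V) 1, P x ^ 2 ≤ G⁻¹ * G ^ 2 :=
                  mul_le_mul_of_nonneg_left hI (by positivity)
              _ = G := by field_simp
          linarith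
    _ = C * ((volume (ball (0 : V) 1)).toReal + 1) * G := by ring

/-- The gradient of the almost linear part of the pressure. -/
theorem t_HB : S_HB := by
  obtain ⟨C, hC0, hC⟩ := int_pd_th_le
  refine ⟨8 + C, by positivity, fun v q P G hS z hz i => ?_⟩
  have hG : 0 ≤ G := le_trans (integral_nonneg fun x => by unfold gsq; positivity) hS.grad
  have hsG : 0 ≤ √G := Real.sqrt_nonneg _
  set g : V → ℝ := fun x => q x - P x with hg
  have hgs : ContDiff ℝ ∞ g := hS.sq.sub hS.sP
  have hpc : Continuous (pd i g) := (smooth_pd hgs i).continuous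
  -- the mean
  have hm : |∫ y, th y * pd i g y| ≤ √G + G + C * G := by
    have e : ∀ y, th y * pd i g y = th y * pd i q y - th y * pd i P y := by
      intro y
      rw [hg, pd_sub hS.sq hS.sP]
      ring
    simp_rw [e]
    rw [integral_sub (th_mul_int (smooth_pd hS.sq i).continuous)
      (th_mul_int (smooth_pd hS.sP i).continuous), ibp_th hS.sP i]
    have h1 := hS.force i
    have h2 := hC P G hS.sP hG hS.nP i
    calc |(∫ z, th z * pd i q z) - -∫ z, pd i th z * P z|
        ≤ |∫ z, th z * pd i q z| + |∫ z, pd i th z * P z| := by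
          rw [sub_neg_eq_add]; exact abs_add_le _ _
      _ ≤ _ := by linarith
  -- the oscillation
  have hosc : ∀ y ∈ ball (0 : V) 1, |pd i g z - pd i g y| ≤ 6 * G := by
    intro y hy
    have h1 : ∀ x ∈ ball (0 : V) 1, ‖fderiv ℝ (pd i g) x‖ ≤ 3 * G := by
      intro x hx
      exact opnorm_le hG fun j => hS.hess x hx j i
    have h2 := (convex_ball (0 : V) 1).norm_image_sub_le_of_norm_fderiv_le
      (𝕜 := ℝ) (f := pd i g) (fun x _ => df (smooth_pd hgs i) x) h1 hy hz
    rw [Real.norm_eq_abs] at h2
    have h3 : ‖z - y‖ ≤ 2 := by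
      have hz' : ‖z‖ < 1 := by simpa using hz
      have hy' : ‖y‖ < 1 := by simpa using hy
      have := norm_sub_le z y
      linarith
    calc |pd i g z - pd i g y| ≤ 3 * G * ‖z - y‖ := h2
      _ ≤ 3 * G * 2 := mul_le_mul_of_nonneg_left h3 (by positivity)
      _ = 6 * G := by ring
  have hd : |∫ y, th y * (pd i g z - pd i g y)| ≤ 6 * G := by
    have i1 : Integrable (fun y => th y * (pd i g z - pd i g y)) :=
      th_mul_int (continuous_const.sub hpc)
    have i2 : Integrable (fun y => th y * (6 * G)) := th_mul_int continuous_const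
    calc |∫ y, th y * (pd i g z - pd i g y)|
        ≤ ∫ y, |th y * (pd i g z - pd i g y)| := by
          simpa [Real.norm_eq_abs] using norm_integral_le_integral_norm
            (fun y => th y * (pd i g z - pd i g y))
      _ ≤ ∫ y, th y * (6 * G) := by
          refine integral_mono i1.abs i2 fun y => ?_
          simp only []
          rw [abs_mul, abs_of_nonneg (th_nonneg y)]
          by_cases hy : y ∈ ball (0 : V) 1
          · exact mul_le_mul_of_nonneg_left (hosc y hy) (th_nonneg y)
          · rw [th_zero hy]; simp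
      _ = 6 * G := by rw [integral_mul_const, th_int, one_mul]
  have hsplit : ∫ y, th y * (pd i g z - pd i g y) = pd i g z - ∫ y, th y * pd i g y := by
    have e : ∀ y, th y * (pd i g z - pd i g y) = th y * pd i g z - th y * pd i g y :=
      fun y => by ring
    simp_rw [e]
    rw [integral_sub (th_mul_int continuous_const) (th_mul_int hpc), integral_mul_const, th_int,
      one_mul]
  rw [hsplit] at hd
  calc |pd i g z| = |(pd i g z - ∫ y, th y * pd i g y) + ∫ y, th y * pd i g y| := by ring_nf
    _ ≤ |pd i g z - ∫ y, th y * pd i g y| + |∫ y, th y * pd i g y| := abs_add_le _ _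
    _ ≤ 6 * G + (√G + G + C * G) := by linarith
    _ ≤ (8 + C) * (√G + G) := by nlinarith [mul_nonneg hC0.le hsG]

end Pool.Agent.Y153.NS
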