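import Pool.Agent.Y153.NS.HBDd

/-!
The bound of the time derivative of the local mean velocity at one time (helper153, job 71).
-/

open MeasureTheory Set Metric
open scoped ContDiff

namespace Pool.Agent.Y153.NS

open H459R3.NS W221.NS Pool.Agent.Y8 Pool.Agent.W583.MD

/-! ### The weighted oscillation and the weighted dissipation -/

/-- The weighted oscillation is bounded by the weighted dissipation. -/
theorem osc_le (h : S_DYPO) : ∃ C : ℝ, 0 < C ∧ ∀ u : V → V, ContDiff ℝ ∞ u → ∀ n m : ℕ, 1 ≤ n →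
    ∀ x : V, W2 n x (fun y => u y - mo (rr n) u x) ≤ C * NN2 n u x ∧
      ∑ k ∈ (Finset.range n).filter (fun k => k ≤ m), ((2 ^ k * rr n) ^ 4)⁻¹ *
        A2 x (2 ^ k * rr n) (fun y => u y - mo (rr n) u x) ≤ C * NN1 n m u x := by
  obtain ⟨C, hC, h⟩ := h
  refine ⟨256 * C, by positivity, fun u hu n m hn x => ?_⟩
  have hr := rr_pos n
  have hB : ∀ j : ℕ, 0 ≤ B2 x (2 ^ (j + 1) * rr n) u := fun j => integral_nonneg fun y => gsq_nn u y
  constructor
  · have h1 := dy_all hn 6 x (nsq_sm (sub_sm hu (mo (rr n) u x))).continuous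
      (nsq_nn (fun y => u y - mo (rr n) u x))
    have h2 := dypo_sum hC hr 2 (fun k => A2 x (2 ^ k * rr n) (fun y => u y - mo (rr n) u x))
      (fun j => B2 x (2 ^ (j + 1) * rr n) u) hB (fun k => h u hu x (rr n) hr k) n
    calc W2 n x (fun y => u y - mo (rr n) u x)
        ≤ rr n ^ 2 * (2 ^ 6 * (4 * C * ∑ j ∈ Finset.range n, ((2 ^ j * rr n) ^ (2 + 2))⁻¹ *
          B2 x (2 ^ (j + 1) * rr n) u)) := by
          unfold W2
          refine mul_le_mul_of_nonneg_left (h1.trans ?_) (by positivity)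
          exact mul_le_mul_of_nonneg_left h2 (by positivity)
      _ = 256 * C * NN2 n u x := by
          unfold NN2
          rw [Finset.mul_sum, Finset.mul_sum, Finset.mul_sum, Finset.mul_sum]
          refine Finset.sum_congr rfl fun j _ => ?_
          ring
  · have e : (Finset.range n).filter (fun k => k ≤ m) = Finset.range (min n (m + 1)) := by
      ext k
      simp only [Finset.mem_filter, Finset.mem_range, lt_min_iff]
      omega
    have h2 := dypo_sum hC hr 0 (fun k => A2 x (2 ^ k * rr n) (fun y => u y - mo (rr n) u x))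
      (fun j => B2 x (2 ^ (j + 1) * rr n) u) hB (fun k => h u hu x (rr n) hr k) (min n (m + 1))
    unfold NN1
    rw [e]
    refine h2.trans ?_
    refine mul_le_mul_of_nonneg_right (by linarith) (Finset.sum_nonneg fun j _ => ?_)
    exact mul_nonneg (by positivity) (hB j)

/-! ### The main estimate -/

theorem zero_off {F : V → ℝ} (hF : ContDiff ℝ ∞ F) {x : V} (z : ∀ y ∉ ball x (1 / 2), F y = 0)
    (j : Fin 3) : ∀ y ∉ ball x (1 / 2), pd j F y = 0 :=
  fun _ hy => pd_zero' hF (by norm_num) z hy j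

section

variable {u : V → V} {c : V} {G E ζ : V → ℝ}

theorem c1 (hu : ContDiff ℝ ∞ u) (hE : ContDiff ℝ ∞ E) (l : Fin 3) : Continuous (F1 u c E l) :=
  ((contDiff_pi.1 hu l).continuous.sub continuous_const).mul (lap_sm hE).continuous

theorem c2 {e : V → ℝ} (hu : ContDiff ℝ ∞ u) (he : ContDiff ℝ ∞ e) (l : Fin 3) :
    Continuous (F2 u e l) :=
  (contDiff_pi.1 hu l).continuous.mul (lap_sm he).continuous

theorem c3 {e : V → ℝ} (hu : ContDiff ℝ ∞ u) (he : ContDiff ℝ ∞ e) (l : Fin 3) :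
    Continuous (F3 u e l) :=
  continuous_finsetSum _ fun j _ => ((contDiff_pi.1 hu l).continuous.mul
    (contDiff_pi.1 hu j).continuous).mul (sm_pd he j).continuous

theorem c4 (hu : ContDiff ℝ ∞ u) (hE : ContDiff ℝ ∞ E) (l : Fin 3) : Continuous (F4 u c E l) :=
  continuous_finsetSum _ fun j _ => (((contDiff_pi.1 hu l).continuous.sub continuous_const).mul
    ((contDiff_pi.1 hu j).continuous.sub continuous_const)).mul (sm_pd hE j).continuous

theorem c5 (hu : ContDiff ℝ ∞ u) (hE : ContDiff ℝ ∞ E) (l : Fin 3) : Continuous (F5 u c E l) :=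
  continuous_finsetSum _ fun j _ => (continuous_const.mul
    ((contDiff_pi.1 hu l).continuous.sub continuous_const)).mul (sm_pd hE j).continuous

theorem c6 (hu : ContDiff ℝ ∞ u) (hG : ContDiff ℝ ∞ G) (hζ : ContDiff ℝ ∞ ζ) (l : Fin 3) :
    Continuous (F6 u G ζ l) :=
  continuous_finsetSum _ fun i _ => continuous_finsetSum _ fun j _ =>
    ((continuous_const.sub hζ.continuous).mul ((contDiff_pi.1 hu i).continuous.mul
      (contDiff_pi.1 hu j).continuous)).mul (sm_pd (sm_pd (sm_pd hG l) i) j).continuous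

theorem c7 (hu : ContDiff ℝ ∞ u) (hG : ContDiff ℝ ∞ G) (hζ : ContDiff ℝ ∞ ζ) (l : Fin 3) :
    Continuous (F7 u c G ζ l) :=
  continuous_finsetSum _ fun i _ => continuous_finsetSum _ fun j _ =>
    (hζ.continuous.mul (((contDiff_pi.1 hu i).continuous.sub continuous_const).mul
      ((contDiff_pi.1 hu j).continuous.sub continuous_const))).mul
      (sm_pd (sm_pd (sm_pd hG l) i) j).continuous

theorem c8 (hu : ContDiff ℝ ∞ u) (hG : ContDiff ℝ ∞ G) (hζ : ContDiff ℝ ∞ ζ) (l : Fin 3) :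
    Continuous (F8 u c G ζ l) :=
  continuous_finsetSum _ fun i _ => continuous_finsetSum _ fun j _ =>
    (((continuous_const.mul (continuous_const.mul (contDiff_pi.1 hu j).continuous)).sub
      continuous_const).mul (sm_pd hζ j).continuous).mul (sm_pd (sm_pd hG l) i).continuous

/-- The integral identity. -/
theorem HH_id (hu : ContDiff ℝ ∞ u) (hdiv : ∀ x, ∑ i, pd i (fun y => u y i) x = 0) {x : V}
    (hG : ContDiff ℝ ∞ G) (hE : ContDiff ℝ ∞ E) (hζ : ContDiff ℝ ∞ ζ)
    (zG : ∀ y ∉ ball x (1 / 2), G y = 0) (zE : ∀ y ∉ ball x (1 / 2), E y = 0) (l : Fin 3) :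
    ∑ i, ∫ y, (u y i * lap (ph G l i) y + u y i * adv u (ph G l i) y) =
      (∫ y in ball x (1 / 2), F1 u c E l y)
        - (∫ y in ball x (1 / 2), F2 u (fun y => lap G y + E y) l y)
        - (∫ y in ball x (1 / 2), F3 u (fun y => lap G y + E y) l y)
        + (∫ y in ball x (1 / 2), F4 u c E l y) + (∫ y in ball x (1 / 2), F5 u c E l y)
        + (∫ y in ball x (1 / 2), F6 u G ζ l y) + (∫ y in ball x (1 / 2), F7 u c G ζ l y)
        - ∫ y in ball x (1 / 2), F8 u c G ζ l y := by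
  have hL := lap_sm hG
  have hhalf : (0 : ℝ) < 1 / 2 := by norm_num
  have zL : ∀ y ∉ ball x (1 / 2), lap G y = 0 := fun y hy => lap_zero' hG hhalf zG hy
  set e : V → ℝ := fun y => lap G y + E y with he
  have hes : ContDiff ℝ ∞ e := hL.add hE
  have ze : ∀ y ∉ ball x (1 / 2), e y = 0 := fun y hy => by
    simp only [he, zL y hy, zE y hy, add_zero]
  have zl : ∀ i, ∀ y ∉ ball x (1 / 2), pd i (pd l G) y = 0 :=
    fun i => zero_off (sm_pd hG l) (zero_off hG zG l) i
  have zp : ∀ i, ∀ y ∉ ball x (1 / 2), ph G l i y = 0 := fun i y hy => by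
    unfold ph
    rw [zl i y hy, zL y hy]
    simp
  -- integrability
  have hi : ∀ i, Integrable (fun y => u y i * lap (ph G l i) y + u y i * adv u (ph G l i) y) := by
    intro i
    have hadv : Continuous (adv u (ph G l i)) := continuous_finsetSum _ fun j _ =>
      (contDiff_pi.1 hu j).continuous.mul (sm_pd (ph_sm hG l i) j).continuous
    refine int_csR (((contDiff_pi.1 hu i).continuous.mul (lap_sm (ph_sm hG l i)).continuous).add
      ((contDiff_pi.1 hu i).continuous.mul hadv)) (a := x) (R := 1 / 2) fun y hy => ?_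
    rw [lap_zero' (ph_sm hG l i) hhalf (zp i) hy]
    unfold adv
    rw [Finset.sum_eq_zero fun j _ => by rw [zero_off (ph_sm hG l i) (zp i) j y hy, mul_zero]]
    ring
  set S : V → ℝ := fun y => F1 u c E l y - F2 u e l y - F3 u e l y
        + F4 u c E l y + F5 u c E l y + F6 u G ζ l y + F7 u c G ζ l y - F8 u c G ζ l y with hS
  have d1 := c1 (c := c) hu hE l
  have d2 := c2 hu hes l
  have d3 := c3 hu hes l
  have d4 := c4 (c := c) hu hE l
  have d5 := c5 (c := c) hu hE l
  have d6 := c6 hu hG hζ l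
  have d7 := c7 (c := c) hu hG hζ l
  have d8 := c8 (c := c) hu hG hζ l
  have hSc : Continuous S := by
    rw [hS]
    exact ((((((d1.sub d2).sub d3).add d4).add d5).add d6).add d7).sub d8
  have hSz : ∀ y ∉ ball x (1 / 2), S y = 0 := by
    intro y hy
    have z3 : ∀ i j, pd j (pd i (pd l G)) y = 0 := fun i j =>
      zero_off (sm_pd (sm_pd hG l) i) (zl i) j y hy
    have zEj : ∀ j, pd j E y = 0 := fun j => zero_off hE zE j y hy
    have zej : ∀ j, pd j e y = 0 := fun j => zero_off hes ze j y hy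
    simp only [hS, F1, F2, F3, F4, F5, F6, F7, F8, z3, zEj, zej, lap_zero' hE hhalf zE hy,
      lap_zero' hes hhalf ze hy, zl _ y hy, mul_zero, Finset.sum_const_zero, sub_zero, add_zero]
  have hSi : Integrable S := int_csR hSc hSz
  have hD := DV_Z hu hdiv c hG hE hζ hhalf zG zE l
  rw [← integral_finsetSum _ fun i _ => hi i]
  have e1 : ∫ y, ∑ i, (u y i * lap (ph G l i) y + u y i * adv u (ph G l i) y) =
      ∫ y, (S y + DV u c G E ζ l y) :=
    integral_congr_ae (ae_of_all _ fun y => HH_pt u c hG hE hζ l y)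
  rw [e1, integral_add hSi hD.1, hD.2, add_zero, ← ball_int_eq hSz, hS]
  have B : ∀ {f : V → ℝ}, Continuous f → IntegrableOn f (ball x (1 / 2)) :=
    fun hf => ballint hf x _
  have g2 : IntegrableOn (fun y => F1 u c E l y - F2 u e l y) (ball x (1 / 2)) := B (d1.sub d2)
  have g3 : IntegrableOn (fun y => F1 u c E l y - F2 u e l y - F3 u e l y) (ball x (1 / 2)) :=
    B ((d1.sub d2).sub d3)
  have g4 : IntegrableOn (fun y => F1 u c E l y - F2 u e l y - F3 u e l y + F4 u c E l y)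
      (ball x (1 / 2)) := B (((d1.sub d2).sub d3).add d4)
  have g5 : IntegrableOn (fun y => F1 u c E l y - F2 u e l y - F3 u e l y + F4 u c E l y
      + F5 u c E l y) (ball x (1 / 2)) := B ((((d1.sub d2).sub d3).add d4).add d5)
  have g6 : IntegrableOn (fun y => F1 u c E l y - F2 u e l y - F3 u e l y + F4 u c E l y
      + F5 u c E l y + F6 u G ζ l y) (ball x (1 / 2)) :=
    B (((((d1.sub d2).sub d3).add d4).add d5).add d6)
  have g7 : IntegrableOn (fun y => F1 u c E l y - F2 u e l y - F3 u e l y + F4 u c E l y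
      + F5 u c E l y + F6 u G ζ l y + F7 u c G ζ l y) (ball x (1 / 2)) :=
    B ((((((d1.sub d2).sub d3).add d4).add d5).add d6).add d7)
  rw [integral_sub g7 (B d8), integral_add g6 (B d7), integral_add g5 (B d6),
    integral_add g4 (B d5), integral_add g3 (B d4), integral_sub g2 (B d3),
    integral_sub (B d1) (B d2)]

end

/-- The bound of the time derivative of the mean velocity. -/
theorem t_HBD (hK : S_KER2) (hP : S_DYPO) : S_HBD := by
  obtain ⟨C, hC, hK⟩ := KB_ex hK
  obtain ⟨Cz, hCz, hz⟩ := CO_ex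
  obtain ⟨D, hD, hP⟩ := osc_le hP
  refine ⟨64 * C * √D + C + 3 * C + 3 * C * D + 96 * C * √D + 144 * C + 144 * C * D
    + 72 * C * Cz * 17, by positivity, fun u hu hdiv n m hn x l => ?_⟩
  have hr := rr_pos n
  have hn1 : 1 ≤ n := by omega
  set c := mo (rr n) u x with hc
  obtain ⟨ζ, hζ⟩ := hz (2 ^ m * rr n) (by positivity) x
  have hk := hK (rr n) hr (rr_le n) x
  obtain ⟨hP2, hP1⟩ := hP u hu.1 n m hn1 x
  rw [← hc] at hP2 hP1
  have hid := HH_id (c := c) hu.1 hdiv hk.sG hk.sE hζ.sm hk.zG hk.zE l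
  have e0 : HH (rr n) u x l = ∑ i, ∫ y, (u y i * lap (ph (fun z => gg (rr n) (z - x)) l i) y
      + u y i * adv u (ph (fun z => gg (rr n) (z - x)) l i) y) := rfl
  rw [e0, hid]
  have a1 := b1 (c := c) hn1 hC.le hu.1 hk l
  have a2 := b2 hC.le hu hk l
  have a3 := b3 hC.le hu hk l
  have a4 := b4 (c := c) hu.1 hk l
  have a5 := b5 (c := c) hn1 hC.le hu.1 hk l
  have a6 := b6 hn1 hC.le hu.1 hk hζ l
  have a7 := b7 (c := c) hn1 hC.le hu.1 hk hζ l
  have a8 := b8 (c := c) hC.le hCz.le hu.1 hk hζ l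
  have hW0 := W2_nn n x (fun y => u y - c)
  have hB0 : ∀ j : ℕ, 0 ≤ B2 x (2 ^ (j + 1) * rr n) u := fun j =>
    integral_nonneg fun y => gsq_nn u y
  have n2 : 0 ≤ NN2 n u x := Finset.sum_nonneg fun k _ => mul_nonneg (by positivity) (hB0 k)
  have n1 : 0 ≤ NN1 n m u x := Finset.sum_nonneg fun k _ => mul_nonneg (by positivity) (hB0 k)
  have nf : 0 ≤ NF n m u x := Finset.sum_nonneg fun k _ =>
    mul_nonneg (by positivity) (integral_nonneg fun y => nsq_nn u y)
  have hen := energy_nn u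
  -- square roots
  have s1 : √(W2 n x (fun y => u y - c)) ≤ √D * √(NN2 n u x) := by
    rw [← Real.sqrt_mul hD.le]
    exact Real.sqrt_le_sqrt hP2
  have s5 : √(W2 n x (fun y => u y - c) / rr n) ≤ √D * √(NN2 n u x / rr n) := by
    rw [← Real.sqrt_mul hD.le]
    apply Real.sqrt_le_sqrt
    rw [← mul_div_assoc]
    exact div_le_div_of_nonneg_right hP2 hr.le
  set X1 := √(NN2 n u x) / √(rr n ^ 3) with hX1
  set X5 := ‖c‖ * √(NN2 n u x / rr n) with hX5
  set X8 := ‖c‖ ^ 2 / (2 ^ m * rr n) with hX8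
  have x1 : 0 ≤ X1 := by positivity
  have x5 : 0 ≤ X5 := by positivity
  have x8 : 0 ≤ X8 := by positivity
  have t1 : 64 * C * (√(W2 n x (fun y => u y - c)) / √(rr n ^ 3)) ≤ 64 * C * √D * X1 := by
    rw [hX1]
    calc 64 * C * (√(W2 n x (fun y => u y - c)) / √(rr n ^ 3))
        ≤ 64 * C * (√D * √(NN2 n u x) / √(rr n ^ 3)) :=
          mul_le_mul_of_nonneg_left (div_le_div_of_nonneg_right s1 (Real.sqrt_nonneg _))
            (by positivity)
      _ = _ := by ring
  have t5 : 96 * C * (‖c‖ * √(W2 n x (fun y => u y - c) / rr n)) ≤ 96 * C * √D * X5 := by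
    rw [hX5]
    calc 96 * C * (‖c‖ * √(W2 n x (fun y => u y - c) / rr n))
        ≤ 96 * C * (‖c‖ * (√D * √(NN2 n u x / rr n))) :=
          mul_le_mul_of_nonneg_left (mul_le_mul_of_nonneg_left s5 (norm_nonneg _)) (by positivity)
      _ = _ := by ring
  have t4 : 3 * C * W2 n x (fun y => u y - c) ≤ 3 * C * D * NN2 n u x := by
    rw [mul_assoc (3 * C)]
    exact mul_le_mul_of_nonneg_left hP2 (by positivity)
  have t7 := mul_le_mul_of_nonneg_left hP1 (show 0 ≤ 144 * C by positivity)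
  -- the sum
  set T := NN1 n m u x + NN2 n u x + X5 + X1 + NF n m u x + X8 + 1 + energy u with hT
  have hT1 : NN1 n m u x ≤ T := by rw [hT]; linarith
  have hT2 : NN2 n u x ≤ T := by rw [hT]; linarith
  have hT3 : X5 ≤ T := by rw [hT]; linarith
  have hT4 : X1 ≤ T := by rw [hT]; linarith
  have hT5 : NF n m u x ≤ T := by rw [hT]; linarith
  have hT6 : NF n m u x + X8 ≤ T := by rw [hT]; linarith
  have hT7 : 1 + energy u ≤ T := by rw [hT]; linarith
  have hT8 : energy u ≤ T := by rw [hT]; linarith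
  have q1 := a1.trans (t1.trans (mul_le_mul_of_nonneg_left hT4 (by positivity)))
  have q2 := a2.trans (mul_le_mul_of_nonneg_left hT7 hC.le)
  have q3 := a3.trans (mul_le_mul_of_nonneg_left hT8 (by positivity))
  have q4 := a4.trans (t4.trans (mul_le_mul_of_nonneg_left hT2 (by positivity)))
  have q5 := a5.trans (t5.trans (mul_le_mul_of_nonneg_left hT3 (by positivity)))
  have q6 := a6.trans (mul_le_mul_of_nonneg_left hT5 (by positivity))
  have q7 : |∫ y in ball x (1 / 2), F7 u c (fun z => gg (rr n) (z - x)) ζ l y| ≤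
      144 * C * D * T := by
    refine a7.trans (t7.trans ?_)
    rw [← mul_assoc]
    exact mul_le_mul_of_nonneg_left hT1 (by positivity)
  have q8 : |∫ y in ball x (1 / 2), F8 u c (fun z => gg (rr n) (z - x)) ζ l y| ≤
      72 * C * Cz * 17 * T := by
    refine a8.trans ?_
    rw [mul_assoc (72 * C * Cz)]
    exact mul_le_mul_of_nonneg_left (by linarith) (by positivity)
  have fin : ∀ (y1 y2 y3 y4 y5 y6 y7 y8 z1 z2 z3 z4 z5 z6 z7 z8 : ℝ), |y1| ≤ z1 → |y2| ≤ z2 →
      |y3| ≤ z3 → |y4| ≤ z4 → |y5| ≤ z5 → |y6| ≤ z6 → |y7| ≤ z7 → |y8| ≤ z8 →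
      |y1 - y2 - y3 + y4 + y5 + y6 + y7 - y8| ≤ z1 + z2 + z3 + z4 + z5 + z6 + z7 + z8 := by
    intro y1 y2 y3 y4 y5 y6 y7 y8 z1 z2 z3 z4 z5 z6 z7 z8 g1 g2 g3 g4 g5 g6 g7 g8
    rw [abs_le] at *
    constructor <;> linarith [g1.1, g1.2, g2.1, g2.2, g3.1, g3.2, g4.1, g4.2, g5.1, g5.2,
      g6.1, g6.2, g7.1, g7.2, g8.1, g8.2]
  refine (fin _ _ _ _ _ _ _ _ _ _ _ _ _ _ _ _ q1 q2 q3 q4 q5 q6 q7 q8).trans (le_of_eq ?_)
  ring

end Pool.Agent.Y153.NS
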