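import Pool.Agent.Y8.Stm2
import Pool.Agent.Y8.Maj
import Pool.Agent.W162.MD.CUT
import Pool.Agent.Y153.NS.HB

/-!
Dyadic sums for the bound of the time derivative of the mean velocity (helper153, job 71).
-/

open MeasureTheory Set Metric
open scoped ContDiff

namespace Pool.Agent.Y153.NS

open H459R3.NS W221.NS Pool.Agent.Y8

/-! ### Pointwise -/

theorem dy_pt {r : ℝ} (hr : 0 < r) (p : ℕ) {d : ℝ} (hd : 0 ≤ d) (K : Finset ℕ) {k : ℕ}
    (hk : k ∈ K) (h1 : d < 2 ^ k * r) (h2 : 2 ^ k * r ≤ 2 * (r + d)) :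
    ((r + d) ^ p)⁻¹ ≤ ∑ j ∈ K, 2 ^ p * (((2 ^ j * r) ^ p)⁻¹ * (if d < 2 ^ j * r then 1 else 0)) := by
  have h3 : ((r + d) ^ p)⁻¹ ≤ 2 ^ p * (((2 ^ k * r) ^ p)⁻¹ * (if d < 2 ^ k * r then 1 else 0)) := by
    rw [if_pos h1, mul_one]
    have h4 : (2 ^ k * r) ^ p ≤ 2 ^ p * (r + d) ^ p := by
      rw [← mul_pow]
      exact pow_le_pow_left₀ (by positivity) h2 p
    rw [← div_eq_mul_inv, le_div_iff₀ (by positivity), inv_mul_le_iff₀ (by positivity)]
    linarith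
  refine h3.trans ?_
  refine Finset.single_le_sum
    (f := fun j => 2 ^ p * (((2 ^ j * r) ^ p)⁻¹ * (if d < 2 ^ j * r then (1 : ℝ) else 0)))
    (fun j _ => ?_) hk
  positivity

theorem dy_ex {r : ℝ} {d : ℝ} (b : ℕ) (hb : 2 ^ b * r ≤ 2 * (r + d)) (hr : 0 < r) :
    ∀ a : ℕ, b ≤ a → d < 2 ^ a * r → ∃ k, b ≤ k ∧ k ≤ a ∧ d < 2 ^ k * r ∧ 2 ^ k * r ≤ 2 * (r + d) := by
  intro a
  induction a with
  | zero =>
    intro h1 h2
    exact ⟨0, h1, le_rfl, h2, by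
      have h0 : b = 0 := Nat.le_zero.1 h1
      subst h0
      exact hb⟩
  | succ a ih =>
    intro h1 h2
    rcases h1.lt_or_eq with h | h
    · by_cases h3 : d < 2 ^ a * r
      · obtain ⟨k, hk1, hk2, hk3, hk4⟩ := ih (Nat.lt_succ_iff.1 h) h3
        exact ⟨k, hk1, hk2.trans (Nat.le_succ a), hk3, hk4⟩
      · refine ⟨a + 1, h1, le_rfl, h2, ?_⟩
        rw [not_lt] at h3
        rw [pow_succ]
        linarith
    · exact ⟨b, le_rfl, h1, by rw [h]; exact h2, hb⟩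

theorem rr_pos (n : ℕ) : 0 < rr n := by unfold rr; positivity

theorem rr_le (n : ℕ) : rr n ≤ 1 := by
  unfold rr
  exact pow_le_one₀ (by norm_num) (by norm_num)

theorem two_rr {n k : ℕ} (h : k ≤ n) : 2 ^ k * rr n = (1 / 2) ^ (n - k) := by
  unfold rr
  obtain ⟨m, rfl⟩ := Nat.exists_eq_add_of_le h
  rw [Nat.add_sub_cancel_left, pow_add, ← mul_assoc, ← mul_pow]
  norm_num

theorem two_rr' {n : ℕ} (h : 1 ≤ n) : 2 ^ (n - 1) * rr n = 1 / 2 := by
  rw [two_rr (Nat.sub_le n 1)]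
  have : n - (n - 1) = 1 := by omega
  rw [this, pow_one]

/-! ### Integrals -/

theorem dy_int {r : ℝ} (hr : 0 < r) (p : ℕ) (x : V) (K : Finset ℕ) {S : Set V}
    (hS : MeasurableSet S)
    (h : ∀ y ∈ S, ∃ k ∈ K, ‖y - x‖ < 2 ^ k * r ∧ 2 ^ k * r ≤ 2 * (r + ‖y - x‖)) {f : V → ℝ}
    (hf : Continuous f) (h0 : ∀ y, 0 ≤ f y) :
    ∫ y in S, f y * ((r + ‖y - x‖) ^ p)⁻¹ ≤
      2 ^ p * ∑ k ∈ K, ((2 ^ k * r) ^ p)⁻¹ * ∫ y in ball x (2 ^ k * r), f y := by
  set G : V → ℝ := fun y => ∑ k ∈ K, 2 ^ p * (((2 ^ k * r) ^ p)⁻¹ *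
    (ball x (2 ^ k * r)).indicator f y) with hG
  have hGk : ∀ k ∈ K, Integrable (fun y => 2 ^ p * (((2 ^ k * r) ^ p)⁻¹ *
      (ball x (2 ^ k * r)).indicator f y)) := fun k _ =>
    (((integrable_indicator_iff measurableSet_ball).2 (ballint hf x _)).const_mul _).const_mul _
  have hGi : Integrable G := integrable_finsetSum _ hGk
  have hG0 : ∀ y, 0 ≤ G y := fun y => Finset.sum_nonneg fun k _ => by
    have : 0 ≤ (ball x (2 ^ k * r)).indicator f y := indicator_nonneg (fun y _ => h0 y) y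
    positivity
  have h1 : ∫ y in S, f y * ((r + ‖y - x‖) ^ p)⁻¹ ≤ ∫ y in S, G y := by
    refine integral_mono_of_nonneg (ae_of_all _ fun y => ?_) hGi.integrableOn
      (ae_restrict_of_forall_mem hS fun y hy => ?_)
    · exact mul_nonneg (h0 y) (by positivity)
    · obtain ⟨k, hk, hk1, hk2⟩ := h y hy
      have h2 := mul_le_mul_of_nonneg_left (dy_pt hr p (norm_nonneg _) K hk hk1 hk2) (h0 y)
      refine h2.trans (le_of_eq ?_)
      rw [hG, Finset.mul_sum]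
      refine Finset.sum_congr rfl fun j _ => ?_
      by_cases hj : y ∈ ball x (2 ^ j * r)
      · rw [indicator_of_mem hj]
        rw [mem_ball, dist_eq_norm] at hj
        rw [if_pos hj]
        ring
      · rw [indicator_of_notMem hj]
        rw [mem_ball, dist_eq_norm] at hj
        rw [if_neg hj]
        ring
  have h2 : ∫ y in S, G y ≤ ∫ y, G y := setIntegral_le_integral hGi (ae_of_all _ hG0)
  have h3 : ∫ y, G y = 2 ^ p * ∑ k ∈ K, ((2 ^ k * r) ^ p)⁻¹ * ∫ y in ball x (2 ^ k * r), f y := by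
    rw [hG, integral_finsetSum _ hGk, Finset.mul_sum]
    refine Finset.sum_congr rfl fun k _ => ?_
    rw [integral_const_mul, integral_const_mul, integral_indicator measurableSet_ball]
  linarith

/-- All scales. -/
theorem dy_all {n : ℕ} (hn : 1 ≤ n) (p : ℕ) (x : V) {f : V → ℝ} (hf : Continuous f)
    (h0 : ∀ y, 0 ≤ f y) :
    ∫ y in ball x (1 / 2), f y * ((rr n + ‖y - x‖) ^ p)⁻¹ ≤
      2 ^ p * ∑ k ∈ Finset.range n, ((2 ^ k * rr n) ^ p)⁻¹ * ∫ y in ball x (2 ^ k * rr n), f y := by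
  refine dy_int (rr_pos n) p x _ measurableSet_ball (fun y hy => ?_) hf h0
  rw [mem_ball, dist_eq_norm] at hy
  have h1 := rr_pos n
  have h2 := norm_nonneg (y - x)
  obtain ⟨k, -, hk, h3, h4⟩ := dy_ex (r := rr n) (d := ‖y - x‖) 0
    (by rw [pow_zero, one_mul]; linarith) h1 (n - 1) (Nat.zero_le _) (by rw [two_rr' hn]; exact hy)
  exact ⟨k, Finset.mem_range.2 (by omega), h3, h4⟩

/-- Small scales. -/
theorem dy_in {n : ℕ} (hn : 1 ≤ n) (m p : ℕ) (x : V) {f : V → ℝ} (hf : Continuous f)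
    (h0 : ∀ y, 0 ≤ f y) :
    ∫ y in ball x (1 / 2) ∩ ball x (2 ^ m * rr n), f y * ((rr n + ‖y - x‖) ^ p)⁻¹ ≤
      2 ^ p * ∑ k ∈ (Finset.range n).filter (fun k => k ≤ m),
        ((2 ^ k * rr n) ^ p)⁻¹ * ∫ y in ball x (2 ^ k * rr n), f y := by
  refine dy_int (rr_pos n) p x _ (measurableSet_ball.inter measurableSet_ball)
    (fun y hy => ?_) hf h0
  obtain ⟨hy, hy'⟩ := hy
  rw [mem_ball, dist_eq_norm] at hy hy'
  have h1 := rr_pos n
  have h2 := norm_nonneg (y - x)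
  have h5 : ‖y - x‖ < 2 ^ (min m (n - 1)) * rr n := by
    rcases min_choice m (n - 1) with h | h
    · rw [h]; exact hy'
    · rw [h, two_rr' hn]; exact hy
  obtain ⟨k, -, hk, h3, h4⟩ := dy_ex (r := rr n) (d := ‖y - x‖) 0
    (by rw [pow_zero, one_mul]; linarith) h1 (min m (n - 1)) (Nat.zero_le _) h5
  have h6 := le_min_iff.1 hk
  exact ⟨k, Finset.mem_filter.2 ⟨Finset.mem_range.2 (by omega), h6.1⟩, h3, h4⟩

/-- Large scales. -/
theorem dy_out {n : ℕ} (hn : 1 ≤ n) (m p : ℕ) (x : V) {f : V → ℝ} (hf : Continuous f)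
    (h0 : ∀ y, 0 ≤ f y) :
    ∫ y in ball x (1 / 2) \ ball x (2 ^ m * rr n / 2), f y * ((rr n + ‖y - x‖) ^ p)⁻¹ ≤
      2 ^ p * ∑ k ∈ (Finset.range n).filter (fun k => m ≤ k),
        ((2 ^ k * rr n) ^ p)⁻¹ * ∫ y in ball x (2 ^ k * rr n), f y := by
  refine dy_int (rr_pos n) p x _ (measurableSet_ball.diff measurableSet_ball)
    (fun y hy => ?_) hf h0
  obtain ⟨hy, hy'⟩ := hy
  rw [mem_ball, dist_eq_norm] at hy hy'
  rw [not_lt] at hy'
  have h1 := rr_pos n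
  have h2 := norm_nonneg (y - x)
  have hmn : m ≤ n - 1 := by
    by_contra hcon
    have h7 : n ≤ m := by omega
    have h8 : (2 : ℝ) ^ n * rr n = 1 := by rw [two_rr le_rfl]; simp
    have h9 : (2 : ℝ) ^ n * rr n ≤ 2 ^ m * rr n :=
      mul_le_mul_of_nonneg_right (pow_le_pow_right₀ (by norm_num) h7) h1.le
    linarith
  obtain ⟨k, hk', hk, h3, h4⟩ := dy_ex (r := rr n) (d := ‖y - x‖) m
    (by linarith) h1 (n - 1) hmn (by rw [two_rr' hn]; exact hy)
  exact ⟨k, Finset.mem_filter.2 ⟨Finset.mem_range.2 (by omega), hk'⟩, h3, h4⟩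

/-! ### Volumes -/

theorem vol_ball (x : V) {ρ : ℝ} (h : 0 < ρ) : ∫ _ in ball x ρ, (1 : ℝ) = 8 * ρ ^ 3 := by
  rw [setIntegral_const, smul_eq_mul, mul_one, Measure.real, Real.volume_pi_ball x h,
    ENNReal.toReal_ofReal (by positivity)]
  simp only [Fintype.card_fin]
  ring

theorem geo_half (N : ℕ) : ∑ k ∈ Finset.range N, ((1 / 2 : ℝ)) ^ k ≤ 2 := by
  have h := geom_sum_eq (x := (1 / 2 : ℝ)) (by norm_num) N
  rw [h]
  have : (0 : ℝ) ≤ (1 / 2) ^ N := by positivity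
  rw [div_le_iff_of_neg (by norm_num)]
  linarith

/-- The integral of the weight. -/
theorem vol_w {n : ℕ} (hn : 1 ≤ n) (q : ℕ) (x : V) :
    ∫ y in ball x (1 / 2), ((rr n + ‖y - x‖) ^ (q + 4))⁻¹ ≤
      2 ^ (q + 8) * (rr n ^ (q + 1))⁻¹ := by
  have h1 := dy_all hn (q + 4) x (f := fun _ => (1 : ℝ)) continuous_const fun _ => zero_le_one
  simp only [one_mul] at h1
  refine h1.trans ?_
  have hr := rr_pos n
  have h2 : ∀ k ∈ Finset.range n, ((2 ^ k * rr n) ^ (q + 4))⁻¹ *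
      ∫ _ in ball x (2 ^ k * rr n), (1 : ℝ) ≤ 8 * (rr n ^ (q + 1))⁻¹ * (1 / 2) ^ k := by
    intro k _
    rw [vol_ball x (by positivity)]
    have e : ((2 ^ k * rr n) ^ (q + 4))⁻¹ * (8 * (2 ^ k * rr n) ^ 3) =
        8 * ((2 ^ k * rr n) ^ (q + 1))⁻¹ := by
      rw [show q + 4 = (q + 1) + 3 by ring, pow_add]
      field_simp
    rw [e, mul_pow, mul_inv, mul_assoc]
    refine mul_le_mul_of_nonneg_left ?_ (by norm_num)
    rw [mul_comm]
    refine mul_le_mul_of_nonneg_left ?_ (by positivity)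
    rw [one_div, inv_pow, inv_le_inv₀ (by positivity) (by positivity), ← pow_mul]
    exact pow_le_pow_right₀ (by norm_num) (Nat.le_mul_of_pos_right k (by omega))
  have h3 := Finset.sum_le_sum h2
  rw [← Finset.mul_sum] at h3
  have h4 := geo_half n
  calc 2 ^ (q + 4) * ∑ k ∈ Finset.range n, ((2 ^ k * rr n) ^ (q + 4))⁻¹ *
      ∫ _ in ball x (2 ^ k * rr n), (1 : ℝ)
      ≤ 2 ^ (q + 4) * (8 * (rr n ^ (q + 1))⁻¹ * ∑ k ∈ Finset.range n, (1 / 2) ^ k) :=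
        mul_le_mul_of_nonneg_left h3 (by positivity)
    _ ≤ 2 ^ (q + 4) * (8 * (rr n ^ (q + 1))⁻¹ * 2) :=
        mul_le_mul_of_nonneg_left (mul_le_mul_of_nonneg_left h4 (by positivity)) (by positivity)
    _ = 2 ^ (q + 8) * (rr n ^ (q + 1))⁻¹ := by ring

/-! ### Sums -/

theorem geo_sum (b : ℕ → ℝ) (N : ℕ) :
    (∑ k ∈ Finset.range (N + 1), ∑ j ∈ Finset.range (k + 1), (3 / 4 : ℝ) ^ (k - j) * b j)
      + 3 * ∑ j ∈ Finset.range (N + 1), (3 / 4 : ℝ) ^ (N - j) * b j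
      = 4 * ∑ j ∈ Finset.range (N + 1), b j := by
  induction N with
  | zero => simp; ring
  | succ N ih =>
    have e : ∑ j ∈ Finset.range (N + 1 + 1), (3 / 4 : ℝ) ^ (N + 1 - j) * b j =
        3 / 4 * (∑ j ∈ Finset.range (N + 1), (3 / 4 : ℝ) ^ (N - j) * b j) + b (N + 1) := by
      rw [Finset.sum_range_succ, Nat.sub_self, pow_zero, one_mul, Finset.mul_sum]
      congr 1
      refine Finset.sum_congr rfl fun j hj => ?_
      have : N + 1 - j = (N - j) + 1 := by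
        have := Finset.mem_range.1 hj
        omega
      rw [this, pow_succ]
      ring
    rw [Finset.sum_range_succ (fun k => ∑ j ∈ Finset.range (k + 1), (3 / 4 : ℝ) ^ (k - j) * b j)
      (N + 1), e, Finset.sum_range_succ b (N + 1)]
    linarith

theorem dypo_sum {C r : ℝ} (hC : 0 < C) (hr : 0 < r) (q : ℕ) (A B : ℕ → ℝ) (hB : ∀ j, 0 ≤ B j)
    (h : ∀ k, A k ≤ C * (2 ^ k * r) ^ 3 *
      ∑ j ∈ Finset.range (k + 1), (3 / 2) ^ (k - j) * ((2 ^ j * r)⁻¹ * B j)) (N : ℕ) :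
    ∑ k ∈ Finset.range N, ((2 ^ k * r) ^ (q + 4))⁻¹ * A k ≤
      4 * C * ∑ j ∈ Finset.range N, ((2 ^ j * r) ^ (q + 2))⁻¹ * B j := by
  cases N with
  | zero => simp
  | succ N =>
    set b : ℕ → ℝ := fun j => ((2 ^ j * r) ^ (q + 2))⁻¹ * B j with hb
    have hb0 : ∀ j, 0 ≤ b j := fun j => mul_nonneg (by positivity) (hB j)
    have h1 : ∀ k ∈ Finset.range (N + 1), ((2 ^ k * r) ^ (q + 4))⁻¹ * A k ≤
        C * ∑ j ∈ Finset.range (k + 1), (3 / 4 : ℝ) ^ (k - j) * b j := by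
      intro k _
      have h2 := mul_le_mul_of_nonneg_left (h k)
        (show 0 ≤ ((2 ^ k * r) ^ (q + 4))⁻¹ by positivity)
      refine h2.trans ?_
      have e1 : ((2 ^ k * r) ^ (q + 4))⁻¹ * (C * (2 ^ k * r) ^ 3 *
          ∑ j ∈ Finset.range (k + 1), (3 / 2) ^ (k - j) * ((2 ^ j * r)⁻¹ * B j)) =
          C * ∑ j ∈ Finset.range (k + 1),
            ((2 ^ k * r) ^ (q + 1))⁻¹ * ((3 / 2) ^ (k - j) * ((2 ^ j * r)⁻¹ * B j)) := by
        rw [← Finset.mul_sum, show q + 4 = (q + 1) + 3 by ring, pow_add (2 ^ k * r)]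
        field_simp
      rw [e1]
      refine mul_le_mul_of_nonneg_left (Finset.sum_le_sum fun j hj => ?_) hC.le
      obtain ⟨i, rfl⟩ := Nat.exists_eq_add_of_le (Nat.lt_succ_iff.1 (Finset.mem_range.1 hj))
      rw [Nat.add_sub_cancel_left]
      have e2 : ((2 ^ (j + i) * r) ^ (q + 1))⁻¹ =
          (((2 : ℝ) ^ i) ^ (q + 1))⁻¹ * ((2 ^ j * r) ^ (q + 1))⁻¹ := by
        rw [← mul_inv, ← mul_pow]
        congr 2
        ring
      have h3 : (((2 : ℝ) ^ i) ^ (q + 1))⁻¹ ≤ (1 / 2) ^ i := by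
        rw [one_div, inv_pow, inv_le_inv₀ (by positivity) (by positivity), ← pow_mul]
        exact pow_le_pow_right₀ (by norm_num) (Nat.le_mul_of_pos_right i (by omega))
      have e3 : (3 / 4 : ℝ) ^ i * b j = (1 / 2) ^ i *
          (((2 ^ j * r) ^ (q + 1))⁻¹ * ((3 / 2) ^ i * ((2 ^ j * r)⁻¹ * B j))) := by
        have : (3 / 4 : ℝ) ^ i = (1 / 2) ^ i * (3 / 2) ^ i := by rw [← mul_pow]; norm_num
        rw [this, hb]
        simp only []
        rw [show q + 2 = (q + 1) + 1 by ring, pow_succ, mul_inv]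
        ring
      rw [e3, e2, mul_assoc]
      refine mul_le_mul_of_nonneg_right h3 ?_
      have := hB j
      positivity
    refine (Finset.sum_le_sum h1).trans ?_
    rw [← Finset.mul_sum]
    have h4 := geo_sum b N
    have h5 : 0 ≤ ∑ j ∈ Finset.range (N + 1), (3 / 4 : ℝ) ^ (N - j) * b j :=
      Finset.sum_nonneg fun j _ => mul_nonneg (by positivity) (hb0 j)
    calc C * ∑ k ∈ Finset.range (N + 1), ∑ j ∈ Finset.range (k + 1), (3 / 4 : ℝ) ^ (k - j) * b j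
        ≤ C * (4 * ∑ j ∈ Finset.range (N + 1), b j) :=
          mul_le_mul_of_nonneg_left (by linarith) hC.le
      _ = 4 * C * ∑ j ∈ Finset.range (N + 1), b j := by ring

end Pool.Agent.Y153.NS
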