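import Pool.Agent.Y153.NS.HBDa

/-!
The algebra of the time derivative of the mean velocity (helper153, job 71).
-/

open MeasureTheory Set Metric
open scoped ContDiff

namespace Pool.Agent.Y153.NS

open H459R3.NS W221.NS Pool.Agent.Y8 Pool.Agent.W583.MD

/-! ### Calculus -/

theorem lap_sm {f : V → ℝ} (hf : ContDiff ℝ ∞ f) : ContDiff ℝ ∞ (lap f) := by
  unfold lap
  exact ContDiff.sum fun j _ => sm_pd (sm_pd hf j) j

theorem pd_cm {f : V → ℝ} (hf : ContDiff ℝ ∞ f) (i j : Fin 3) : pd i (pd j f) = pd j (pd i f) :=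
  funext fun x => Pool.Agent.W135.MD.pd_comm' hf i j x

theorem lap_pd {f : V → ℝ} (hf : ContDiff ℝ ∞ f) (i : Fin 3) : lap (pd i f) = pd i (lap f) := by
  funext x
  have h1 : pd i (lap f) x = ∑ j, pd i (pd j (pd j f)) x := by
    have := Pool.Agent.W135.MD.pd_sum' (s := Finset.univ) (f := fun j => pd j (pd j f))
      (fun j _ => df (sm_pd (sm_pd hf j) j)) i x
    exact this
  rw [h1]
  unfold lap
  refine Finset.sum_congr rfl fun j _ => ?_
  rw [pd_cm hf j i, pd_cm (sm_pd hf j) j i]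

theorem pd_ad {f g : V → ℝ} (hf : ContDiff ℝ ∞ f) (hg : ContDiff ℝ ∞ g) (i : Fin 3) :
    pd i (fun y => f y + g y) = fun y => pd i f y + pd i g y :=
  funext fun x => Pool.Agent.W135.MD.pd_add' (df hf) (df hg) i x

theorem lap_ad {f g : V → ℝ} (hf : ContDiff ℝ ∞ f) (hg : ContDiff ℝ ∞ g) (x : V) :
    lap (fun y => f y + g y) x = lap f x + lap g x := by
  unfold lap
  rw [← Finset.sum_add_distrib]
  refine Finset.sum_congr rfl fun j _ => ?_
  rw [pd_ad hf hg, pd_ad (sm_pd hf j) (sm_pd hg j)]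

/-- The transport term has mean zero. -/
theorem Z_adv {u : V → V} (hu : ContDiff ℝ ∞ u) (hdiv : ∀ x, ∑ i, pd i (fun y => u y i) x = 0)
    {F : V → ℝ} (hF : ContDiff ℝ ∞ F) (hs : HasCompactSupport F) : Z (adv u F) := by
  have h1 : adv u F = fun x => ∑ j, pd j (fun y => u y j * F y) x := by
    funext x
    have e : ∀ j, pd j (fun y => u y j * F y) x = u x j * pd j F x + pd j (fun y => u y j) x * F x :=
      fun j => pd_mul' (contDiff_pi.1 hu j) hF j x
    simp_rw [e]
    rw [Finset.sum_add_distrib, ← Finset.sum_mul, hdiv x, zero_mul, add_zero]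
    rfl
  rw [h1]
  exact Z.sum fun j => Z_pd ((contDiff_pi.1 hu j).mul hF) hs.mul_left j

/-! ### The kernels -/

/-- The test field of a kernel. -/
noncomputable def ph (G : V → ℝ) (l i : Fin 3) (y : V) : ℝ :=
  pd i (pd l G) y - if i = l then lap G y else 0

theorem lap_ph {G : V → ℝ} (hG : ContDiff ℝ ∞ G) (l i : Fin 3) (y : V) :
    lap (ph G l i) y = pd i (pd l (lap G)) y - if i = l then lap (lap G) y else 0 := by
  by_cases h : i = l
  · have e : ph G l i = fun y => pd i (pd l G) y - lap G y := by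
      funext y; unfold ph; rw [if_pos h]
    rw [e, if_pos h, Pool.Agent.W135.MD.lap_sub (sm_pd (sm_pd hG l) i) (lap_sm hG),
      lap_pd (sm_pd hG l), lap_pd hG]
  · have e : ph G l i = pd i (pd l G) := by
      funext y; unfold ph; rw [if_neg h, sub_zero]
    rw [e, if_neg h, lap_pd (sm_pd hG l), lap_pd hG, sub_zero]

theorem pd_ph {G : V → ℝ} (hG : ContDiff ℝ ∞ G) (l i j : Fin 3) (y : V) :
    pd j (ph G l i) y = pd j (pd i (pd l G)) y - if i = l then pd j (lap G) y else 0 := by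
  by_cases h : i = l
  · have e : ph G l i = fun y => pd i (pd l G) y - lap G y := by
      funext y; unfold ph; rw [if_pos h]
    rw [e, if_pos h, pd_sub (sm_pd (sm_pd hG l) i) (lap_sm hG)]
  · have e : ph G l i = pd i (pd l G) := by
      funext y; unfold ph; rw [if_neg h, sub_zero]
    rw [e, if_neg h, sub_zero]

theorem ph_sm {G : V → ℝ} (hG : ContDiff ℝ ∞ G) (l i : Fin 3) : ContDiff ℝ ∞ (ph G l i) := by
  by_cases h : i = l
  · have e : ph G l i = fun y => pd i (pd l G) y - lap G y := by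
      funext y; unfold ph; rw [if_pos h]
    rw [e]
    exact (sm_pd (sm_pd hG l) i).sub (lap_sm hG)
  · have e : ph G l i = pd i (pd l G) := by
      funext y; unfold ph; rw [if_neg h, sub_zero]
    rw [e]
    exact sm_pd (sm_pd hG l) i

/-- The integrand after the integrations by parts, in eight pieces. -/
noncomputable def F1 (u : V → V) (c : V) (E : V → ℝ) (l : Fin 3) (y : V) : ℝ :=
  (u y l - c l) * lap E y
noncomputable def F2 (u : V → V) (e : V → ℝ) (l : Fin 3) (y : V) : ℝ := u y l * lap e y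
noncomputable def F3 (u : V → V) (e : V → ℝ) (l : Fin 3) (y : V) : ℝ :=
  ∑ j, u y l * u y j * pd j e y
noncomputable def F4 (u : V → V) (c : V) (E : V → ℝ) (l : Fin 3) (y : V) : ℝ :=
  ∑ j, (u y l - c l) * (u y j - c j) * pd j E y
noncomputable def F5 (u : V → V) (c : V) (E : V → ℝ) (l : Fin 3) (y : V) : ℝ :=
  ∑ j, c j * (u y l - c l) * pd j E y
noncomputable def F6 (u : V → V) (G ζ : V → ℝ) (l : Fin 3) (y : V) : ℝ :=
  ∑ i, ∑ j, (1 - ζ y) * (u y i * u y j) * pd j (pd i (pd l G)) y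
noncomputable def F7 (u : V → V) (c : V) (G ζ : V → ℝ) (l : Fin 3) (y : V) : ℝ :=
  ∑ i, ∑ j, ζ y * ((u y i - c i) * (u y j - c j)) * pd j (pd i (pd l G)) y
noncomputable def F8 (u : V → V) (c : V) (G ζ : V → ℝ) (l : Fin 3) (y : V) : ℝ :=
  ∑ i, ∑ j, (2 * (c i * u y j) - c i * c j) * pd j ζ y * pd i (pd l G) y

/-- The exact part. -/
noncomputable def DV (u : V → V) (c : V) (G E ζ : V → ℝ) (l : Fin 3) (y : V) : ℝ :=
  adv u (pd l (lap G)) y + c l * (∑ j, pd j (pd j E) y) + c l * adv u E y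
    + ∑ i, (2 * c i) * adv u (fun y => ζ y * pd i (pd l G) y) y
    - ∑ i, ∑ j, (c i * c j) * pd j (fun y => ζ y * pd i (pd l G) y) y

theorem DV_Z {u : V → V} (hu : ContDiff ℝ ∞ u) (hdiv : ∀ x, ∑ i, pd i (fun y => u y i) x = 0)
    (c : V) {G E ζ : V → ℝ} (hG : ContDiff ℝ ∞ G) (hE : ContDiff ℝ ∞ E) (hζ : ContDiff ℝ ∞ ζ)
    {x : V} {R : ℝ} (hR : 0 < R) (zG : ∀ y ∉ ball x R, G y = 0) (zE : ∀ y ∉ ball x R, E y = 0)
    (l : Fin 3) : Z (DV u c G E ζ l) := by
  have hL := lap_sm hG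
  have zL : ∀ y ∉ ball x R, lap G y = 0 := fun y hy => lap_zero' hG hR zG hy
  have cL : HasCompactSupport (pd l (lap G)) := cs_pd (hcsR zL) l
  have hH : ∀ i, ContDiff ℝ ∞ (fun y => ζ y * pd i (pd l G) y) :=
    fun i => hζ.mul (sm_pd (sm_pd hG l) i)
  have cH : ∀ i, HasCompactSupport (fun y => ζ y * pd i (pd l G) y) :=
    fun i => (cs_pd (cs_pd (hcsR zG) l) i).mul_left
  unfold DV
  refine Z.sub (Z.add (Z.add (Z.add ?_ ?_) ?_) ?_) ?_
  · exact Z_adv hu hdiv (sm_pd hL l) cL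
  · exact Z.smul (Z.sum fun j => Z_pd (sm_pd hE j) (cs_pd (hcsR zE) j) j) _
  · exact Z.smul (Z_adv hu hdiv hE (hcsR zE)) _
  · exact Z.sum fun i => Z.smul (Z_adv hu hdiv (hH i) (cH i)) _
  · exact Z.sum fun i => Z.sum fun j => Z.smul (Z_pd (hH i) (cH i) j) _

theorem HH_pt (u : V → V) (c : V) {G E ζ : V → ℝ} (hG : ContDiff ℝ ∞ G) (hE : ContDiff ℝ ∞ E)
    (hζ : ContDiff ℝ ∞ ζ) (l : Fin 3) (y : V) :
    ∑ i, (u y i * lap (ph G l i) y + u y i * adv u (ph G l i) y) =
      (F1 u c E l y - F2 u (fun y => lap G y + E y) l y - F3 u (fun y => lap G y + E y) l y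
        + F4 u c E l y + F5 u c E l y + F6 u G ζ l y + F7 u c G ζ l y - F8 u c G ζ l y)
      + DV u c G E ζ l y := by
  have hL := lap_sm hG
  -- step A
  have hA : ∑ i, (u y i * lap (ph G l i) y + u y i * adv u (ph G l i) y) =
      (∑ i, u y i * pd i (pd l (lap G)) y) - u y l * lap (lap G) y
        + (∑ i, ∑ j, u y i * (u y j * pd j (pd i (pd l G)) y))
        - ∑ j, u y l * (u y j * pd j (lap G) y) := by
    have e1 : ∀ i, u y i * lap (ph G l i) y =
        u y i * pd i (pd l (lap G)) y - if i = l then u y i * lap (lap G) y else 0 := by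
      intro i
      rw [lap_ph hG]
      split_ifs <;> ring
    have e2 : ∀ i, u y i * adv u (ph G l i) y = (∑ j, u y i * (u y j * pd j (pd i (pd l G)) y)) -
        if i = l then ∑ j, u y i * (u y j * pd j (lap G) y) else 0 := by
      intro i
      unfold adv
      rw [Finset.mul_sum]
      by_cases h : i = l
      · rw [if_pos h, ← Finset.sum_sub_distrib]
        refine Finset.sum_congr rfl fun j _ => ?_
        rw [pd_ph hG, if_pos h]
        ring
      · rw [if_neg h, sub_zero]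
        refine Finset.sum_congr rfl fun j _ => ?_
        rw [pd_ph hG, if_neg h, sub_zero]
    simp_rw [e1, e2]
    rw [Finset.sum_add_distrib, Finset.sum_sub_distrib, Finset.sum_sub_distrib,
      Finset.sum_ite_eq' Finset.univ l, Finset.sum_ite_eq' Finset.univ l]
    simp only [Finset.mem_univ, if_true]
    ring
  rw [hA]
  -- step B
  have hB1 : lap (fun y => lap G y + E y) y = lap (lap G) y + lap E y := lap_ad hL hE y
  have hB2 : ∀ j, pd j (fun y => lap G y + E y) y = pd j (lap G) y + pd j E y :=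
    fun j => congrFun (pd_ad hL hE j) y
  have hB3 : ∀ i j, pd j (fun y => ζ y * pd i (pd l G) y) y =
      ζ y * pd j (pd i (pd l G)) y + pd j ζ y * pd i (pd l G) y :=
    fun i j => pd_mul' hζ (sm_pd (sm_pd hG l) i) j y
  have hS : ∀ i j, pd j (pd i (pd l G)) y = pd i (pd j (pd l G)) y :=
    fun i j => congrFun (pd_cm (sm_pd hG l) j i) y
  have hLE : (∑ j, pd j (pd j E) y) = lap E y := rfl
  unfold F1 F2 F3 F4 F5 F6 F7 F8 DV adv
  simp_rw [hB3]
  simp_rw [hB2]
  rw [hB1, hLE]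
  simp only [Fin.sum_univ_three]
  rw [hS 0 1, hS 0 2, hS 1 2]
  ring

end Pool.Agent.Y153.NS
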