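import Pool.Agent.Y153.NS.HBDb

/-!
The cut-off and the bounds of the kernels (helper153, job 71).
-/

open MeasureTheory Set Metric
open scoped ContDiff

namespace Pool.Agent.Y153.NS

open H459R3.NS W221.NS Pool.Agent.Y8 Pool.Agent.W583.MD

/-! ### Shifts -/

theorem pd_sh {f : V → ℝ} (x : V) (i : Fin 3) :
    pd i (fun z => f (z - x)) = fun y => pd i f (y - x) := by
  funext y
  unfold pd
  have h := fderiv_comp_add_right (𝕜 := ℝ) (f := f) (x := y) (-x)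
  simp only [← sub_eq_add_neg] at h
  rw [h]

theorem lap_sh {f : V → ℝ} (x : V) :
    lap (fun z => f (z - x)) = fun y => lap f (y - x) := by
  funext y
  unfold lap
  refine Finset.sum_congr rfl fun j _ => ?_
  rw [pd_sh, pd_sh]

theorem sm_sh {f : V → ℝ} (hf : ContDiff ℝ ∞ f) (x : V) : ContDiff ℝ ∞ (fun z => f (z - x)) :=
  hf.comp (contDiff_id.sub contDiff_const)

/-- Bounds of the kernels at the point `x`. -/
structure KB (C r : ℝ) (x : V) (G E : V → ℝ) : Prop where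
  sG : ContDiff ℝ ∞ G
  sE : ContDiff ℝ ∞ E
  zG : ∀ y ∉ ball x (1 / 2), G y = 0
  zE : ∀ y ∉ ball x (1 / 2), E y = 0
  dE : ∀ i y, |pd i E y| ≤ C * r ^ 2 * ((r + ‖y - x‖) ^ 6)⁻¹
  lE : ∀ y, |lap E y| ≤ C * r ^ 2 * ((r + ‖y - x‖) ^ 7)⁻¹
  de : ∀ i y, |pd i (fun y => lap G y + E y) y| ≤ C
  le : ∀ y, |lap (fun y => lap G y + E y) y| ≤ C
  d2 : ∀ i j y, |pd i (pd j G) y| ≤ C * ((r + ‖y - x‖) ^ 3)⁻¹
  d3 : ∀ i j l y, |pd i (pd j (pd l G)) y| ≤ C * ((r + ‖y - x‖) ^ 4)⁻¹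

theorem KB_ex (h : S_KER2) : ∃ C : ℝ, 0 < C ∧ ∀ r : ℝ, 0 < r → r ≤ 1 → ∀ x : V,
    KB C r x (fun z => gg r (z - x)) (fun z => eta r (z - x)) := by
  obtain ⟨C, hC, h⟩ := h
  refine ⟨C, hC, fun r hr hr1 x => ?_⟩
  obtain ⟨s1, s2, -, h⟩ := h r hr hr1
  have hz : ∀ y ∉ ball x (1 / 2 : ℝ), (1 / 2 : ℝ) ≤ ‖y - x‖ := fun y hy => by
    rw [mem_ball, dist_eq_norm, not_lt] at hy
    exact hy
  have hsh : (fun y => lap (fun z => gg r (z - x)) y + eta r (y - x)) =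
      fun y => (fun z => lap (gg r) z + eta r z) (y - x) := by
    funext y
    rw [lap_sh]
  refine ⟨sm_sh s1 x, sm_sh s2 x, fun y hy => ((h (y - x)).1 (hz y hy)).1,
    fun y hy => ((h (y - x)).1 (hz y hy)).2, fun i y => ?_, fun y => ?_, fun i y => ?_,
    fun y => ?_, fun i j y => ?_, fun i j l y => ?_⟩
  · rw [pd_sh, ← div_eq_mul_inv]
    exact (h (y - x)).2.2.1 i
  · rw [lap_sh, ← div_eq_mul_inv]
    exact (h (y - x)).2.2.2.1
  · rw [hsh, pd_sh (f := fun z => lap (gg r) z + eta r z)]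
    exact (h (y - x)).2.2.2.2.2.1 i
  · rw [hsh, lap_sh (f := fun z => lap (gg r) z + eta r z)]
    exact (h (y - x)).2.2.2.2.2.2.1
  · rw [pd_sh, pd_sh, ← div_eq_mul_inv]
    exact (h (y - x)).2.2.2.2.2.2.2.1 i j
  · rw [pd_sh, pd_sh, pd_sh, ← div_eq_mul_inv]
    exact (h (y - x)).2.2.2.2.2.2.2.2 i j l

/-! ### The cut-off -/

theorem cut_sm : ContDiff ℝ ∞ (fun z : V => cut z) := cut.contDiff

theorem cut_pd_bdd : ∃ C : ℝ, 0 < C ∧ ∀ j z, |pd j (fun y : V => cut y) z| ≤ C := by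
  have hc : ∀ j : Fin 3, ∃ C, ∀ z, ‖pd j (fun y : V => cut y) z‖ ≤ C := by
    intro j
    apply Continuous.bounded_above_of_compact_support (sm_pd cut_sm j).continuous
    exact cs_pd cut.hasCompactSupport j
  choose C hC using hc
  refine ⟨1 + ∑ j, |C j|, by positivity, fun j z => ?_⟩
  have h1 := hC j z
  rw [Real.norm_eq_abs] at h1
  have h2 : |C j| ≤ ∑ j, |C j| :=
    Finset.single_le_sum (f := fun j => |C j|) (fun i _ => abs_nonneg _) (Finset.mem_univ j)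
  have h3 := le_abs_self (C j)
  linarith

/-- The cut-off at the radius `R`. -/
structure CO (C R : ℝ) (x : V) (ζ : V → ℝ) : Prop where
  sm : ContDiff ℝ ∞ ζ
  nn : ∀ y, 0 ≤ ζ y
  le : ∀ y, ζ y ≤ 1
  out : ∀ y ∉ ball x R, ζ y = 0
  inn : ∀ y ∈ ball x (R / 2), ζ y = 1
  pd_le : ∀ j y, |pd j ζ y| ≤ C / R
  pd_in : ∀ j, ∀ y ∈ ball x (R / 2), pd j ζ y = 0
  pd_out : ∀ j, ∀ y ∉ ball x R, pd j ζ y = 0

theorem CO_ex : ∃ C : ℝ, 0 < C ∧ ∀ R : ℝ, 0 < R → ∀ x : V, ∃ ζ, CO C R x ζ := by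
  obtain ⟨C, hC, h⟩ := cut_pd_bdd
  refine ⟨C, hC, fun R hR x => ?_⟩
  set a : ℝ := (2 * R)⁻¹ with ha
  have ha0 : 0 < a := by positivity
  have hs : ContDiff ℝ ∞ (fun y : V => cut (-(a • x) + a • y)) := by
    have := cut_sm
    exact this.comp (contDiff_const.add (contDiff_const_smul a))
  have hn : ∀ y, ‖-(a • x) + a • y‖ = a * ‖y - x‖ := fun y => by
    have : -(a • x) + a • y = a • (y - x) := by rw [smul_sub]; abel
    rw [this, norm_smul, Real.norm_of_nonneg ha0.le]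
  have hout : ∀ y ∉ ball x R, cut (-(a • x) + a • y) = 0 := by
    intro y hy
    apply cut.zero_of_le_dist
    rw [dist_zero_right, hn]
    rw [mem_ball, dist_eq_norm, not_lt] at hy
    show (1 / 2 : ℝ) ≤ a * ‖y - x‖
    have h1 : a * R = 1 / 2 := by rw [ha]; field_simp
    nlinarith
  have hinn : ∀ y ∈ ball x (R / 2), cut (-(a • x) + a • y) = 1 := by
    intro y hy
    apply cut.one_of_mem_closedBall
    rw [mem_closedBall, dist_zero_right, hn]
    rw [mem_ball, dist_eq_norm] at hy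
    show a * ‖y - x‖ ≤ 1 / 4
    have h1 : a * R = 1 / 2 := by rw [ha]; field_simp
    nlinarith
  refine ⟨fun y => cut (-(a • x) + a • y), hs, fun y => cut.nonneg, fun y => cut.le_one, hout,
    hinn, fun j y => ?_, fun j y hy => ?_, fun j y hy => pd_zero' hs hR hout hy j⟩
  · have h1 := Pool.Agent.W135.MD.pd_aff (f := fun z : V => cut z) (df cut_sm) (-(a • x)) a j y
    rw [h1, abs_mul, abs_of_pos ha0]
    have h2 := h j (-(a • x) + a • y)
    have h3 : a ≤ 1 / R := by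
      rw [ha, one_div]
      exact inv_anti₀ hR (by linarith)
    calc a * |pd j (fun z : V => cut z) (-(a • x) + a • y)| ≤ 1 / R * C :=
          mul_le_mul h3 h2 (abs_nonneg _) (by positivity)
      _ = C / R := by ring
  · have h1 : (fun y : V => cut (-(a • x) + a • y)) =ᶠ[nhds y] fun _ => (1 : ℝ) := by
      filter_upwards [isOpen_ball.mem_nhds hy] with z hz
      exact hinn z hz
    unfold pd
    rw [h1.fderiv_eq]
    simp

end Pool.Agent.Y153.NS
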