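import Pool.Agent.Y153.NS.HBDc

/-!
The bounds of the eight pieces (helper153, job 71).
-/

open MeasureTheory Set Metric
open scoped ContDiff

namespace Pool.Agent.Y153.NS

open H459R3.NS W221.NS Pool.Agent.Y8 Pool.Agent.W583.MD

/-! ### General tools -/

theorem abs_int_le {f g : V → ℝ} {S : Set V} (hS : MeasurableSet S) (hg : IntegrableOn g S)
    (h : ∀ y ∈ S, |f y| ≤ g y) : |∫ y in S, f y| ≤ ∫ y in S, g y := by
  rw [← Real.norm_eq_abs]
  exact norm_integral_le_of_norm_le hg (ae_restrict_of_forall_mem hS fun y hy => by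
    rw [Real.norm_eq_abs]; exact h y hy)

theorem sum3_le {f : Fin 3 → ℝ} {M : ℝ} (h : ∀ j, |f j| ≤ M) : |∑ j, f j| ≤ 3 * M :=
  calc |∑ j, f j| ≤ ∑ j, |f j| := Finset.abs_sum_le_sum_abs _ _
    _ ≤ ∑ _j : Fin 3, M := Finset.sum_le_sum fun j _ => h j
    _ = 3 * M := by simp

theorem cw {r : ℝ} (hr : 0 < r) (x : V) (p : ℕ) :
    Continuous fun y => ((r + ‖y - x‖) ^ p)⁻¹ := by
  refine Continuous.inv₀ (by fun_prop) fun y => ?_
  have := norm_nonneg (y - x)
  positivity

theorem prod_le (v : V → V) (y : V) (i j : Fin 3) : |v y i * v y j| ≤ nsq v y := by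
  rw [abs_mul]
  have h1 := W162.MD.abs_le_sqrt_nsq v y i
  have h2 := W162.MD.abs_le_sqrt_nsq v y j
  calc |v y i| * |v y j| ≤ √(nsq v y) * √(nsq v y) :=
        mul_le_mul h1 h2 (abs_nonneg _) (Real.sqrt_nonneg _)
    _ = nsq v y := Real.mul_self_sqrt (nsq_nn v y)

theorem sub_sm {u : V → V} (hu : ContDiff ℝ ∞ u) (c : V) : ContDiff ℝ ∞ (fun y => u y - c) :=
  hu.sub contDiff_const

/-- The integral of `nsq u` over the ball is at most the energy. -/
theorem ball_energy {u : V → V} (hu : SPV u) (x : V) :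
    ∫ y in ball x (1 / 2), nsq u y ≤ energy u := by
  rw [energy_eq hu.1]
  exact Pool.Agent.W135.MD.ball_le_cube (nsq_sm hu.1).continuous (nsq_per hu.2) (nsq_nn u) _ le_rfl

/-- The weighted oscillation. -/
noncomputable def W2 (n : ℕ) (x : V) (w : V → V) : ℝ :=
  rr n ^ 2 * ∫ y in ball x (1 / 2), nsq w y * ((rr n + ‖y - x‖) ^ 6)⁻¹

theorem W2_nn (n : ℕ) (x : V) (w : V → V) : 0 ≤ W2 n x w := by
  have h1 := rr_pos n
  refine mul_nonneg (by positivity) (integral_nonneg fun y => mul_nonneg (nsq_nn w y) ?_)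
  positivity

/-- Cauchy-Schwarz with weights. -/
theorem cs_w {n : ℕ} {x : V} {w : V → V} (hw : ContDiff ℝ ∞ w) {f D : V → ℝ} {C : ℝ} (hC : 0 ≤ C)
    (q : ℕ) (hf : ∀ y, |f y| ≤ √(nsq w y))
    (hD : ∀ y, |D y| ≤ C * rr n ^ 2 * ((rr n + ‖y - x‖) ^ (q + 3))⁻¹) :
    |∫ y in ball x (1 / 2), f y * D y| ≤
      C * (√(W2 n x w) * √(rr n ^ 2 * ∫ y in ball x (1 / 2), ((rr n + ‖y - x‖) ^ (2 * q))⁻¹)) := by
  have hr := rr_pos n
  have hnw : Continuous (nsq w) := (nsq_sm hw).continuous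
  set a : V → ℝ := fun y => √(nsq w y) * (rr n * ((rr n + ‖y - x‖) ^ 3)⁻¹) with ha
  set b : V → ℝ := fun y => rr n * ((rr n + ‖y - x‖) ^ q)⁻¹ with hb
  have hac : Continuous a := hnw.sqrt.mul (continuous_const.mul (cw hr x 3))
  have hbc : Continuous b := continuous_const.mul (cw hr x q)
  have h1 : |∫ y in ball x (1 / 2), f y * D y| ≤ ∫ y in ball x (1 / 2), C * (a y * b y) := by
    refine abs_int_le measurableSet_ball (ballint (continuous_const.mul (hac.mul hbc)) _ _)
      fun y _ => ?_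
    have hρ : 0 < rr n + ‖y - x‖ := by have := norm_nonneg (y - x); positivity
    rw [abs_mul]
    calc |f y| * |D y| ≤ √(nsq w y) * (C * rr n ^ 2 * ((rr n + ‖y - x‖) ^ (q + 3))⁻¹) :=
          mul_le_mul (hf y) (hD y) (abs_nonneg _) (Real.sqrt_nonneg _)
      _ = C * (a y * b y) := by
          rw [ha, hb]
          simp only []
          rw [pow_add, mul_inv]
          ring
  rw [integral_const_mul] at h1
  have h2 := W162.MD.cs_ball hac hbc x (1 / 2)
  have h3 : ∫ y in ball x (1 / 2), a y ^ 2 = W2 n x w := by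
    unfold W2
    rw [← integral_const_mul]
    refine integral_congr_ae (ae_of_all _ fun y => ?_)
    simp only [ha, mul_pow, Real.sq_sqrt (nsq_nn w y), ← inv_pow, ← pow_mul]
    ring
  have h4 : ∫ y in ball x (1 / 2), b y ^ 2 =
      rr n ^ 2 * ∫ y in ball x (1 / 2), ((rr n + ‖y - x‖) ^ (2 * q))⁻¹ := by
    rw [← integral_const_mul]
    refine integral_congr_ae (ae_of_all _ fun y => ?_)
    simp only [hb, mul_pow, ← inv_pow, ← pow_mul]
    ring
  rw [h3, h4] at h2
  exact h1.trans (mul_le_mul_of_nonneg_left ((le_abs_self _).trans h2) hC)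

section

variable {C Cz : ℝ} {n m : ℕ} {x : V} {u : V → V} {c : V} {G E ζ : V → ℝ}

theorem b1 (hn : 1 ≤ n) (hC : 0 ≤ C) (hu : ContDiff ℝ ∞ u) (hK : KB C (rr n) x G E) (l : Fin 3) :
    |∫ y in ball x (1 / 2), F1 u c E l y| ≤
      64 * C * (√(W2 n x (fun y => u y - c)) / √(rr n ^ 3)) := by
  have hr := rr_pos n
  have h1 := cs_w (n := n) (x := x) (sub_sm hu c) (f := fun y => u y l - c l) (D := lap E) hC 4
    (fun y => W162.MD.abs_le_sqrt_nsq (fun y => u y - c) y l) hK.lE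
  have h2 := vol_w hn 4 x
  have h3 : √(rr n ^ 2 * ∫ y in ball x (1 / 2), ((rr n + ‖y - x‖) ^ (2 * 4))⁻¹) ≤
      64 / √(rr n ^ 3) := by
    have e : (64 : ℝ) / √(rr n ^ 3) = √(64 ^ 2 / rr n ^ 3) := by
      rw [Real.sqrt_div (by positivity), Real.sqrt_sq (by norm_num)]
    rw [e]
    apply Real.sqrt_le_sqrt
    calc rr n ^ 2 * ∫ y in ball x (1 / 2), ((rr n + ‖y - x‖) ^ (2 * 4))⁻¹
        ≤ rr n ^ 2 * (2 ^ (4 + 8) * (rr n ^ (4 + 1))⁻¹) :=
          mul_le_mul_of_nonneg_left h2 (by positivity)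
      _ = 64 ^ 2 / rr n ^ 3 := by
          field_simp
          norm_num
  refine h1.trans ?_
  have h4 := mul_le_mul_of_nonneg_left h3 (Real.sqrt_nonneg (W2 n x (fun y => u y - c)))
  calc C * (√(W2 n x (fun y => u y - c)) *
        √(rr n ^ 2 * ∫ y in ball x (1 / 2), ((rr n + ‖y - x‖) ^ (2 * 4))⁻¹))
      ≤ C * (√(W2 n x (fun y => u y - c)) * (64 / √(rr n ^ 3))) :=
        mul_le_mul_of_nonneg_left h4 hC
    _ = 64 * C * (√(W2 n x (fun y => u y - c)) / √(rr n ^ 3)) := by ring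

theorem b5 (hn : 1 ≤ n) (hC : 0 ≤ C) (hu : ContDiff ℝ ∞ u) (hK : KB C (rr n) x G E) (l : Fin 3) :
    |∫ y in ball x (1 / 2), F5 u c E l y| ≤
      96 * C * (‖c‖ * √(W2 n x (fun y => u y - c) / rr n)) := by
  have hr := rr_pos n
  have h1 : ∀ j, |∫ y in ball x (1 / 2), (u y l - c l) * pd j E y| ≤
      32 * C * √(W2 n x (fun y => u y - c) / rr n) := by
    intro j
    have h1 := cs_w (n := n) (x := x) (sub_sm hu c) (f := fun y => u y l - c l) (D := pd j E) hC 3
      (fun y => W162.MD.abs_le_sqrt_nsq (fun y => u y - c) y l) (hK.dE j)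
    have h2 := vol_w hn 2 x
    have h3 : √(rr n ^ 2 * ∫ y in ball x (1 / 2), ((rr n + ‖y - x‖) ^ (2 * 3))⁻¹) ≤
        32 / √(rr n) := by
      have e : (32 : ℝ) / √(rr n) = √(32 ^ 2 / rr n) := by
        rw [Real.sqrt_div (by positivity), Real.sqrt_sq (by norm_num)]
      rw [e]
      apply Real.sqrt_le_sqrt
      calc rr n ^ 2 * ∫ y in ball x (1 / 2), ((rr n + ‖y - x‖) ^ (2 * 3))⁻¹
          ≤ rr n ^ 2 * (2 ^ (2 + 8) * (rr n ^ (2 + 1))⁻¹) :=
            mul_le_mul_of_nonneg_left h2 (by positivity)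
        _ = 32 ^ 2 / rr n := by
            field_simp
            norm_num
    refine h1.trans ?_
    rw [Real.sqrt_div (W2_nn _ _ _)]
    have h4 := mul_le_mul_of_nonneg_left h3 (Real.sqrt_nonneg (W2 n x (fun y => u y - c)))
    calc C * (√(W2 n x (fun y => u y - c)) *
          √(rr n ^ 2 * ∫ y in ball x (1 / 2), ((rr n + ‖y - x‖) ^ (2 * 3))⁻¹))
        ≤ C * (√(W2 n x (fun y => u y - c)) * (32 / √(rr n))) :=
          mul_le_mul_of_nonneg_left h4 hC
      _ = 32 * C * (√(W2 n x (fun y => u y - c)) / √(rr n)) := by ring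
  have hi : ∀ j : Fin 3, IntegrableOn (fun y => c j * (u y l - c l) * pd j E y)
      (ball x (1 / 2)) := fun j =>
    ballint ((continuous_const.mul ((contDiff_pi.1 hu l).continuous.sub continuous_const)).mul
      (sm_pd hK.sE j).continuous) _ _
  have h2 : ∫ y in ball x (1 / 2), F5 u c E l y =
      ∑ j, c j * ∫ y in ball x (1 / 2), (u y l - c l) * pd j E y := by
    unfold F5
    rw [integral_finsetSum _ fun j _ => hi j]
    refine Finset.sum_congr rfl fun j _ => ?_
    rw [← integral_const_mul]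
    refine integral_congr_ae (ae_of_all _ fun y => ?_)
    simp only []
    ring
  rw [h2]
  have h3 : ∀ j, |c j * ∫ y in ball x (1 / 2), (u y l - c l) * pd j E y| ≤
      ‖c‖ * (32 * C * √(W2 n x (fun y => u y - c) / rr n)) := by
    intro j
    rw [abs_mul]
    exact mul_le_mul (by simpa using norm_le_pi_norm c j) (h1 j) (abs_nonneg _) (norm_nonneg _)
  calc _ ≤ 3 * (‖c‖ * (32 * C * √(W2 n x (fun y => u y - c) / rr n))) := sum3_le h3
    _ = _ := by ring

theorem b2 (hC : 0 ≤ C) (hu : SPV u) (hK : KB C (rr n) x G E) (l : Fin 3) :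
    |∫ y in ball x (1 / 2), F2 u (fun y => lap G y + E y) l y| ≤ C * (1 + energy u) := by
  have hnu : Continuous (nsq u) := (nsq_sm hu.1).continuous
  have h1 : |∫ y in ball x (1 / 2), F2 u (fun y => lap G y + E y) l y| ≤
      ∫ y in ball x (1 / 2), C * (1 + nsq u y) := by
    refine abs_int_le measurableSet_ball
      (ballint (continuous_const.mul (continuous_const.add hnu)) _ _) fun y _ => ?_
    unfold F2
    rw [abs_mul, mul_comm C]
    have h2 := W162.MD.abs_le_sqrt_nsq u y l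
    have h3 : √(nsq u y) ≤ 1 + nsq u y := by
      have h4 := Real.sq_sqrt (nsq_nn u y)
      have h5 := Real.sqrt_nonneg (nsq u y)
      nlinarith
    exact mul_le_mul (h2.trans h3) (hK.le y) (abs_nonneg _) (by have := nsq_nn u y; linarith)
  have hi1 : IntegrableOn (fun _ : V => (1 : ℝ)) (ball x (1 / 2)) := ballint continuous_const _ _
  rw [integral_const_mul, integral_add hi1 (ballint hnu _ _), vol_ball x (by norm_num)] at h1
  have h2 := ball_energy hu x
  refine h1.trans (mul_le_mul_of_nonneg_left ?_ hC)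
  norm_num at h2 ⊢
  linarith

theorem b3 (hC : 0 ≤ C) (hu : SPV u) (hK : KB C (rr n) x G E) (l : Fin 3) :
    |∫ y in ball x (1 / 2), F3 u (fun y => lap G y + E y) l y| ≤ 3 * C * energy u := by
  have hnu : Continuous (nsq u) := (nsq_sm hu.1).continuous
  have h1 : |∫ y in ball x (1 / 2), F3 u (fun y => lap G y + E y) l y| ≤
      ∫ y in ball x (1 / 2), 3 * C * nsq u y := by
    refine abs_int_le measurableSet_ball
      (ballint (continuous_const.mul hnu) _ _) fun y _ => ?_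
    unfold F3
    have h2 : ∀ j, |u y l * u y j * pd j (fun y => lap G y + E y) y| ≤ nsq u y * C := by
      intro j
      rw [abs_mul]
      exact mul_le_mul (prod_le u y l j) (hK.de j y) (abs_nonneg _) (nsq_nn u y)
    calc _ ≤ 3 * (nsq u y * C) := sum3_le h2
      _ = _ := by ring
  rw [integral_const_mul] at h1
  exact h1.trans (mul_le_mul_of_nonneg_left (ball_energy hu x) (by positivity))

theorem b4 (hu : ContDiff ℝ ∞ u) (hK : KB C (rr n) x G E) (l : Fin 3) :
    |∫ y in ball x (1 / 2), F4 u c E l y| ≤ 3 * C * W2 n x (fun y => u y - c) := by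
  have hr := rr_pos n
  set w : V → V := fun y => u y - c with hw
  have hnw : Continuous (nsq w) := (nsq_sm (sub_sm hu c)).continuous
  have h1 : |∫ y in ball x (1 / 2), F4 u c E l y| ≤
      ∫ y in ball x (1 / 2), 3 * C * rr n ^ 2 * (nsq w y * ((rr n + ‖y - x‖) ^ 6)⁻¹) := by
    refine abs_int_le measurableSet_ball
      (ballint (continuous_const.mul (hnw.mul (cw hr x 6))) _ _) fun y _ => ?_
    unfold F4
    have h2 : ∀ j, |(u y l - c l) * (u y j - c j) * pd j E y| ≤
        nsq w y * (C * rr n ^ 2 * ((rr n + ‖y - x‖) ^ 6)⁻¹) := by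
      intro j
      rw [abs_mul]
      exact mul_le_mul (prod_le w y l j) (hK.dE j y) (abs_nonneg _) (nsq_nn w y)
    calc _ ≤ 3 * (nsq w y * (C * rr n ^ 2 * ((rr n + ‖y - x‖) ^ 6)⁻¹)) := sum3_le h2
      _ = _ := by ring
  rw [integral_const_mul] at h1
  refine h1.trans (le_of_eq ?_)
  unfold W2
  ring

theorem b6 (hn : 1 ≤ n) (hC : 0 ≤ C) (hu : ContDiff ℝ ∞ u) (hK : KB C (rr n) x G E)
    (hζ : CO Cz (2 ^ m * rr n) x ζ) (l : Fin 3) :
    |∫ y in ball x (1 / 2), F6 u G ζ l y| ≤ 144 * C * NF n m u x := by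
  have hr := rr_pos n
  have hnu : Continuous (nsq u) := (nsq_sm hu).continuous
  have e : ∫ y in ball x (1 / 2), F6 u G ζ l y =
      ∫ y in ball x (1 / 2) \ ball x (2 ^ m * rr n / 2), F6 u G ζ l y := by
    refine setIntegral_eq_of_subset_of_forall_sdiff_eq_zero measurableSet_ball sdiff_subset
      fun y hy => ?_
    have hy' : y ∈ ball x (2 ^ m * rr n / 2) := by
      by_contra hcon
      exact hy.2 ⟨hy.1, hcon⟩
    unfold F6
    rw [hζ.inn y hy']
    simp
  rw [e]
  have h1 : |∫ y in ball x (1 / 2) \ ball x (2 ^ m * rr n / 2), F6 u G ζ l y| ≤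
      ∫ y in ball x (1 / 2) \ ball x (2 ^ m * rr n / 2),
        9 * C * (nsq u y * ((rr n + ‖y - x‖) ^ 4)⁻¹) := by
    refine abs_int_le (measurableSet_ball.diff measurableSet_ball)
      ((ballint (continuous_const.mul (hnu.mul (cw hr x 4))) x (1 / 2)).mono_set sdiff_subset)
      fun y _ => ?_
    unfold F6
    have h2 : ∀ i j, |(1 - ζ y) * (u y i * u y j) * pd j (pd i (pd l G)) y| ≤
        nsq u y * (C * ((rr n + ‖y - x‖) ^ 4)⁻¹) := by
      intro i j
      rw [abs_mul, abs_mul]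
      have h3 : |1 - ζ y| ≤ 1 := by
        have := hζ.nn y
        have := hζ.le y
        rw [abs_le]; constructor <;> linarith
      have h4 : |1 - ζ y| * |u y i * u y j| ≤ nsq u y := by
        calc |1 - ζ y| * |u y i * u y j| ≤ 1 * nsq u y :=
              mul_le_mul h3 (prod_le u y i j) (abs_nonneg _) zero_le_one
          _ = nsq u y := one_mul _
      exact mul_le_mul h4 (hK.d3 j i l y) (abs_nonneg _) (nsq_nn u y)
    calc _ ≤ 3 * (3 * (nsq u y * (C * ((rr n + ‖y - x‖) ^ 4)⁻¹))) :=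
          sum3_le fun i => sum3_le (h2 i)
      _ = _ := by ring
  rw [integral_const_mul] at h1
  refine h1.trans ?_
  have h2 := dy_out hn m 4 x hnu (nsq_nn u)
  calc 9 * C * ∫ y in ball x (1 / 2) \ ball x (2 ^ m * rr n / 2),
        nsq u y * ((rr n + ‖y - x‖) ^ 4)⁻¹ ≤ 9 * C * (2 ^ 4 * NF n m u x) :=
        mul_le_mul_of_nonneg_left h2 (by positivity)
    _ = 144 * C * NF n m u x := by ring

theorem b7 (hn : 1 ≤ n) (hC : 0 ≤ C) (hu : ContDiff ℝ ∞ u) (hK : KB C (rr n) x G E)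
    (hζ : CO Cz (2 ^ m * rr n) x ζ) (l : Fin 3) :
    |∫ y in ball x (1 / 2), F7 u c G ζ l y| ≤
      144 * C * ∑ k ∈ (Finset.range n).filter (fun k => k ≤ m),
        ((2 ^ k * rr n) ^ 4)⁻¹ * A2 x (2 ^ k * rr n) (fun y => u y - c) := by
  have hr := rr_pos n
  set w : V → V := fun y => u y - c with hw
  have hnw : Continuous (nsq w) := (nsq_sm (sub_sm hu c)).continuous
  have e : ∫ y in ball x (1 / 2), F7 u c G ζ l y =
      ∫ y in ball x (1 / 2) ∩ ball x (2 ^ m * rr n), F7 u c G ζ l y := by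
    refine setIntegral_eq_of_subset_of_forall_sdiff_eq_zero measurableSet_ball inter_subset_left
      fun y hy => ?_
    have hy' : y ∉ ball x (2 ^ m * rr n) := fun h => hy.2 ⟨hy.1, h⟩
    unfold F7
    rw [hζ.out y hy']
    simp
  rw [e]
  have h1 : |∫ y in ball x (1 / 2) ∩ ball x (2 ^ m * rr n), F7 u c G ζ l y| ≤
      ∫ y in ball x (1 / 2) ∩ ball x (2 ^ m * rr n),
        9 * C * (nsq w y * ((rr n + ‖y - x‖) ^ 4)⁻¹) := by
    refine abs_int_le (measurableSet_ball.inter measurableSet_ball)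
      ((ballint (continuous_const.mul (hnw.mul (cw hr x 4))) x (1 / 2)).mono_set inter_subset_left)
      fun y _ => ?_
    unfold F7
    have h2 : ∀ i j, |ζ y * ((u y i - c i) * (u y j - c j)) * pd j (pd i (pd l G)) y| ≤
        nsq w y * (C * ((rr n + ‖y - x‖) ^ 4)⁻¹) := by
      intro i j
      rw [abs_mul, abs_mul]
      have h3 : |ζ y| ≤ 1 := by
        have := hζ.nn y
        have := hζ.le y
        rw [abs_le]; constructor <;> linarith
      have h4 : |ζ y| * |(u y i - c i) * (u y j - c j)| ≤ nsq w y := by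
        calc |ζ y| * |(u y i - c i) * (u y j - c j)| ≤ 1 * nsq w y :=
              mul_le_mul h3 (prod_le w y i j) (abs_nonneg _) zero_le_one
          _ = nsq w y := one_mul _
      exact mul_le_mul h4 (hK.d3 j i l y) (abs_nonneg _) (nsq_nn w y)
    calc _ ≤ 3 * (3 * (nsq w y * (C * ((rr n + ‖y - x‖) ^ 4)⁻¹))) :=
          sum3_le fun i => sum3_le (h2 i)
      _ = _ := by ring
  rw [integral_const_mul] at h1
  refine h1.trans ?_
  have h2 := dy_in hn m 4 x hnw (nsq_nn w)
  calc 9 * C * ∫ y in ball x (1 / 2) ∩ ball x (2 ^ m * rr n),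
        nsq w y * ((rr n + ‖y - x‖) ^ 4)⁻¹
      ≤ 9 * C * (2 ^ 4 * ∑ k ∈ (Finset.range n).filter (fun k => k ≤ m),
        ((2 ^ k * rr n) ^ 4)⁻¹ * A2 x (2 ^ k * rr n) w) :=
        mul_le_mul_of_nonneg_left h2 (by positivity)
    _ = _ := by ring

theorem b8 (hC : 0 ≤ C) (hCz : 0 ≤ Cz) (hu : ContDiff ℝ ∞ u) (hK : KB C (rr n) x G E)
    (hζ : CO Cz (2 ^ m * rr n) x ζ) (l : Fin 3) :
    |∫ y in ball x (1 / 2), F8 u c G ζ l y| ≤
      72 * C * Cz * (NF n m u x + 16 * (‖c‖ ^ 2 / (2 ^ m * rr n))) := by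
  have hr := rr_pos n
  set R : ℝ := 2 ^ m * rr n with hR
  have hR0 : 0 < R := by positivity
  have hnu : Continuous (nsq u) := (nsq_sm hu).continuous
  have hNF : 0 ≤ NF n m u x := Finset.sum_nonneg fun k _ =>
    mul_nonneg (by positivity) (integral_nonneg fun y => nsq_nn u y)
  by_cases hmn : m < n
  swap
  · -- the cut-off is one
    have h0 : ∫ y in ball x (1 / 2), F8 u c G ζ l y = 0 := by
      refine setIntegral_eq_zero_of_forall_eq_zero fun y hy => ?_
      have hy' : y ∈ ball x (R / 2) := by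
        refine ball_subset_ball ?_ hy
        have h8 : (2 : ℝ) ^ n * rr n = 1 := by rw [two_rr le_rfl]; simp
        have h9 : (2 : ℝ) ^ n * rr n ≤ 2 ^ m * rr n :=
          mul_le_mul_of_nonneg_right (pow_le_pow_right₀ (by norm_num) (not_lt.1 hmn)) hr.le
        linarith
      unfold F8
      refine Finset.sum_eq_zero fun i _ => Finset.sum_eq_zero fun j _ => ?_
      rw [hζ.pd_in j y hy']
      ring
    rw [h0, abs_zero]
    positivity
  have e : ∫ y in ball x (1 / 2), F8 u c G ζ l y =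
      ∫ y in ball x (1 / 2) ∩ ball x R, F8 u c G ζ l y := by
    refine setIntegral_eq_of_subset_of_forall_sdiff_eq_zero measurableSet_ball inter_subset_left
      fun y hy => ?_
    have hy' : y ∉ ball x R := fun h => hy.2 ⟨hy.1, h⟩
    unfold F8
    refine Finset.sum_eq_zero fun i _ => Finset.sum_eq_zero fun j _ => ?_
    rw [hζ.pd_out j y hy']
    ring
  rw [e]
  have h1 : |∫ y in ball x (1 / 2) ∩ ball x R, F8 u c G ζ l y| ≤
      ∫ y in ball x (1 / 2) ∩ ball x R,
        72 * C * Cz * (R ^ 4)⁻¹ * (nsq u y + 2 * ‖c‖ ^ 2) := by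
    refine abs_int_le (measurableSet_ball.inter measurableSet_ball)
      ((ballint (continuous_const.mul (hnu.add continuous_const)) x (1 / 2)).mono_set
        inter_subset_left)
      fun y _ => ?_
    by_cases hy : y ∈ ball x (R / 2)
    · have h0 : F8 u c G ζ l y = 0 := by
        unfold F8
        refine Finset.sum_eq_zero fun i _ => Finset.sum_eq_zero fun j _ => ?_
        rw [hζ.pd_in j y hy]
        ring
      rw [h0, abs_zero]
      have := nsq_nn u y
      positivity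
    · rw [mem_ball, dist_eq_norm, not_lt] at hy
      have hcj : ∀ j, |c j| ≤ ‖c‖ := fun j => by simpa using norm_le_pi_norm c j
      have hc0 := norm_nonneg c
      have hρ : ((rr n + ‖y - x‖) ^ 3)⁻¹ ≤ 8 * (R ^ 3)⁻¹ := by
        have h2 : (R / 2) ^ 3 ≤ (rr n + ‖y - x‖) ^ 3 :=
          pow_le_pow_left₀ (by positivity) (by linarith) 3
        calc ((rr n + ‖y - x‖) ^ 3)⁻¹ ≤ ((R / 2) ^ 3)⁻¹ := inv_anti₀ (by positivity) h2
          _ = 8 * (R ^ 3)⁻¹ := by field_simp; norm_num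
      unfold F8
      have h2 : ∀ i j, |(2 * (c i * u y j) - c i * c j) * pd j ζ y * pd i (pd l G) y| ≤
          (nsq u y + 2 * ‖c‖ ^ 2) * (Cz / R) * (C * (8 * (R ^ 3)⁻¹)) := by
        intro i j
        rw [abs_mul, abs_mul]
        have h3 : |2 * (c i * u y j) - c i * c j| ≤ nsq u y + 2 * ‖c‖ ^ 2 := by
          have h4 : |2 * (c i * u y j) - c i * c j| ≤ 2 * (|c i| * |u y j|) + |c i| * |c j| := by
            calc |2 * (c i * u y j) - c i * c j| ≤ |2 * (c i * u y j)| + |c i * c j| :=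
                  abs_sub _ _
              _ = _ := by rw [abs_mul, abs_mul, abs_mul, abs_two]
          have h5 := W162.MD.abs_le_sqrt_nsq u y j
          have h6 := Real.sq_sqrt (nsq_nn u y)
          have h7 := Real.sqrt_nonneg (nsq u y)
          have h8 : |c i| * |u y j| ≤ ‖c‖ * √(nsq u y) :=
            mul_le_mul (hcj i) h5 (abs_nonneg _) hc0
          have h9 : |c i| * |c j| ≤ ‖c‖ * ‖c‖ :=
            mul_le_mul (hcj i) (hcj j) (abs_nonneg _) hc0
          nlinarith [sq_nonneg (‖c‖ - √(nsq u y))]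
        have h10 := hK.d2 i l y
        have h11 : |pd i (pd l G) y| ≤ C * (8 * (R ^ 3)⁻¹) :=
          h10.trans (mul_le_mul_of_nonneg_left hρ hC)
        have hn0 := nsq_nn u y
        refine mul_le_mul (mul_le_mul h3 (hζ.pd_le j y) (abs_nonneg _) (by positivity)) h11
          (abs_nonneg _) (by positivity)
      calc _ ≤ 3 * (3 * ((nsq u y + 2 * ‖c‖ ^ 2) * (Cz / R) * (C * (8 * (R ^ 3)⁻¹)))) :=
            sum3_le fun i => sum3_le (h2 i)
        _ = 72 * C * Cz * (R ^ 4)⁻¹ * (nsq u y + 2 * ‖c‖ ^ 2) := by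
            field_simp
            ring
  rw [integral_const_mul] at h1
  refine h1.trans ?_
  have hcont : Continuous fun y => nsq u y + 2 * ‖c‖ ^ 2 := hnu.add continuous_const
  have h2 : ∫ y in ball x (1 / 2) ∩ ball x R, (nsq u y + 2 * ‖c‖ ^ 2) ≤
      ∫ y in ball x R, (nsq u y + 2 * ‖c‖ ^ 2) := by
    refine setIntegral_mono_set (ballint hcont _ _) (ae_of_all _ fun y => ?_)
      inter_subset_right.eventuallyLE
    have := nsq_nn u y
    simp only [Pi.zero_apply]
    positivity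
  have hi1 : IntegrableOn (fun _ : V => 2 * ‖c‖ ^ 2) (ball x R) := ballint continuous_const _ _
  have h3 : ∫ y in ball x R, (nsq u y + 2 * ‖c‖ ^ 2) = A2 x R u + 16 * (‖c‖ ^ 2 * R ^ 3) := by
    rw [integral_add (ballint hnu _ _) hi1]
    have h4 : ∫ _ in ball x R, 2 * ‖c‖ ^ 2 = 2 * ‖c‖ ^ 2 * (8 * R ^ 3) := by
      rw [← vol_ball x hR0, ← integral_const_mul]
      simp
    rw [h4]
    unfold A2
    ring
  rw [h3] at h2
  have h5 : (R ^ 4)⁻¹ * A2 x R u ≤ NF n m u x := by
    unfold NF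
    refine Finset.single_le_sum
      (f := fun k => ((2 ^ k * rr n) ^ 4)⁻¹ * A2 x (2 ^ k * rr n) u) (fun k _ => ?_)
      (Finset.mem_filter.2 ⟨Finset.mem_range.2 hmn, le_rfl⟩)
    exact mul_nonneg (by positivity) (integral_nonneg fun y => nsq_nn u y)
  calc 72 * C * Cz * (R ^ 4)⁻¹ * ∫ y in ball x (1 / 2) ∩ ball x R, (nsq u y + 2 * ‖c‖ ^ 2)
      ≤ 72 * C * Cz * (R ^ 4)⁻¹ * (A2 x R u + 16 * (‖c‖ ^ 2 * R ^ 3)) :=
        mul_le_mul_of_nonneg_left h2 (by positivity)
    _ = 72 * C * Cz * ((R ^ 4)⁻¹ * A2 x R u + 16 * (‖c‖ ^ 2 / R)) := by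
        field_simp
    _ ≤ 72 * C * Cz * (NF n m u x + 16 * (‖c‖ ^ 2 / R)) :=
        mul_le_mul_of_nonneg_left (by linarith) (by positivity)

end

end Pool.Agent.Y153.NS
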