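import Pool.Agent.H459R3.NS.Evo
import Pool.Agent.Y8.Stm

/-!
The equation for the pressure at a regular time (helper153, job 19).
-/

open MeasureTheory Set Metric Filter Topology
open scoped ContDiff ENNReal

namespace Pool.Agent.Y153.NS

open H459R3.NS W221.NS

variable {G : Set ℝ}

theorem slice_contDiff {f : ℝ → V → ℝ}
    (hf : ContDiffOn ℝ ∞ (fun z : ℝ × V => f z.1 z.2) (G ×ˢ univ)) {t : ℝ}
    (ht : t ∈ G) : ContDiff ℝ ∞ (f t) := by
  rw [← contDiffOn_univ]
  exact hf.comp (contDiff_const.prodMk contDiff_id).contDiffOn (fun x _ => ⟨ht, mem_univ _⟩)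

theorem pd_fd {f : ℝ → V → ℝ} (hG : IsOpen G)
    (hf : ContDiffOn ℝ ∞ (fun z : ℝ × V => f z.1 z.2) (G ×ˢ univ)) {t : ℝ}
    (ht : t ∈ G) (j : Fin 3) (x : V) :
    pd j (f t) x = fderiv ℝ (fun z : ℝ × V => f z.1 z.2) (t, x) (0, Pi.single j 1) := by
  have hmem : G ×ˢ (univ : Set V) ∈ 𝓝 (t, x) := prod_mem_nhds (hG.mem_nhds ht) Filter.univ_mem
  have hd : DifferentiableAt ℝ (fun z : ℝ × V => f z.1 z.2) (t, x) :=
    (hf.contDiffAt hmem).differentiableAt (by simp)
  have h2 : HasFDerivAt (fun y : V => ((t, y) : ℝ × V)) (ContinuousLinearMap.inr ℝ ℝ V) x :=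
    hasFDerivAt_prodMk_right t x
  have h3 := HasFDerivAt.comp (g := fun z : ℝ × V => f z.1 z.2) x hd.hasFDerivAt h2
  unfold pd
  have h4 : fderiv ℝ (f t) x = _ := h3.fderiv
  rw [h4]
  simp

theorem dt_fd {f : ℝ → V → ℝ} (hG : IsOpen G)
    (hf : ContDiffOn ℝ ∞ (fun z : ℝ × V => f z.1 z.2) (G ×ˢ univ)) {t : ℝ}
    (ht : t ∈ G) (x : V) :
    deriv (fun s => f s x) t = fderiv ℝ (fun z : ℝ × V => f z.1 z.2) (t, x) (1, 0) := by
  have hmem : G ×ˢ (univ : Set V) ∈ 𝓝 (t, x) := prod_mem_nhds (hG.mem_nhds ht) Filter.univ_mem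
  have hd : DifferentiableAt ℝ (fun z : ℝ × V => f z.1 z.2) (t, x) :=
    (hf.contDiffAt hmem).differentiableAt (by simp)
  have h2 : HasDerivAt (fun s : ℝ => ((s, x) : ℝ × V)) (1, 0) t :=
    (hasDerivAt_id t).prodMk (hasDerivAt_const t x)
  exact (hd.hasFDerivAt.comp_hasDerivAt t h2).deriv

/-- Mixed derivatives. -/
theorem dt_pd_comm {f : ℝ → V → ℝ} (hG : IsOpen G)
    (hf : ContDiffOn ℝ ∞ (fun z : ℝ × V => f z.1 z.2) (G ×ˢ univ)) {t : ℝ}
    (ht : t ∈ G) (j : Fin 3) (x : V) :
    HasDerivAt (fun s => pd j (f s) x) (pd j (fun y => deriv (fun s => f s y) t) x) t := by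
  set F : ℝ × V → ℝ := fun z => f z.1 z.2 with hF
  have hmem : G ×ˢ (univ : Set V) ∈ 𝓝 (t, x) := prod_mem_nhds (hG.mem_nhds ht) Filter.univ_mem
  have h2 : ContDiffAt ℝ 2 F (t, x) := (hf.of_le (by norm_cast)).contDiffAt hmem
  have hs : IsSymmSndFDerivAt ℝ F (t, x) := h2.isSymmSndFDerivAt (by simp)
  have hd : DifferentiableAt ℝ (fderiv ℝ F) (t, x) :=
    (h2.fderiv_right (m := 1) (by norm_num)).differentiableAt one_ne_zero
  have l1 : HasDerivAt (fun s => fderiv ℝ F (s, x) (0, Pi.single j 1))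
      (fderiv ℝ (fderiv ℝ F) (t, x) (1, 0) (0, Pi.single j 1)) t := by
    have a1 : HasFDerivAt (fun z => fderiv ℝ F z (0, Pi.single j 1)) _ (t, x) :=
      hd.hasFDerivAt.clm_apply (hasFDerivAt_const ((0, Pi.single j (1 : ℝ)) : ℝ × V) (t, x))
    have a2 : HasDerivAt (fun s : ℝ => ((s, x) : ℝ × V)) (1, 0) t :=
      (hasDerivAt_id t).prodMk (hasDerivAt_const t x)
    have a3 := a1.comp_hasDerivAt t a2
    refine a3.congr_deriv ?_
    simp
  have l2 : HasDerivAt (fun s => pd j (f s) x)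
      (fderiv ℝ (fderiv ℝ F) (t, x) (1, 0) (0, Pi.single j 1)) t := by
    refine l1.congr_of_eventuallyEq ?_
    filter_upwards [hG.mem_nhds ht] with s hs'
    exact pd_fd hG hf hs' j x
  have r1 : HasFDerivAt (fun y => fderiv ℝ F (t, y) (1, 0))
      (((fderiv ℝ (fderiv ℝ F) (t, x)).flip (1, 0)).comp (ContinuousLinearMap.inr ℝ ℝ V)) x := by
    have a1 : HasFDerivAt (fun z => fderiv ℝ F z (1, 0)) _ (t, x) :=
      hd.hasFDerivAt.clm_apply (hasFDerivAt_const ((1, 0) : ℝ × V) (t, x))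
    have a2 : HasFDerivAt (fun y : V => ((t, y) : ℝ × V)) (ContinuousLinearMap.inr ℝ ℝ V) x :=
      hasFDerivAt_prodMk_right t x
    have a3 := a1.comp x a2
    refine a3.congr_fderiv ?_
    ext v
    simp
  have r2 : (fun y => deriv (fun s => f s y) t) = fun y => fderiv ℝ F (t, y) (1, 0) :=
    funext fun y => dt_fd hG hf ht y
  have r3 : pd j (fun y => deriv (fun s => f s y) t) x
      = fderiv ℝ (fderiv ℝ F) (t, x) (0, Pi.single j 1) (1, 0) := by
    unfold pd
    rw [r2, r1.fderiv]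
    simp
  rw [r3, hs.eq]
  exact l2

/-- The equation for the pressure at a regular time. -/
theorem t_WDIV : Pool.Agent.Y8.S_WDIV := by
  intro T E D G u p hu t ht x
  have hG := hu.openG
  -- smoothness of the components
  have hui : ∀ i, ContDiffOn ℝ ∞ (fun z : ℝ × V => u z.1 z.2 i) (G ×ˢ univ) := fun i =>
    (contDiffOn_pi.1 hu.smooth_u) i
  have hsp : ∀ i, SP (fun y => u t y i) := fun i =>
    ⟨slice_contDiff (f := fun s y => u s y i) (hui i) ht, fun j y => by
      have := congrFun (hu.per_u t ht j y) i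
      exact this⟩
  have hp : SP (p t) := ⟨slice_contDiff hu.smooth_p ht, hu.per_p t ht⟩
  have hdiv := hu.divfree t ht
  -- the time derivatives
  have hmom : ∀ i, (fun y => deriv (fun s => u s y i) t)
      = fun y => (lap (fun y => u t y i) y - pd i (p t) y)
        - conv (fun i y => u t y i) i y := by
    intro i
    funext y
    have := hu.momentum t ht y i
    rw [one_mul] at this
    have e1 : lap (fun y => u t y i) y = ∑ j, pd j (pd j (fun y => u t y i)) y := rfl
    have e2 : conv (fun i y => u t y i) i y = ∑ j, u t y j * pd j (fun y => u t y i) y := rfl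
    rw [e1, e2]
    linarith
  have hzero : ∑ i, pd i (fun y => deriv (fun s => u s y i) t) x = 0 := by
    have h1 : HasDerivAt (fun s => ∑ i, pd i (fun y => u s y i) x)
        (∑ i, pd i (fun y => deriv (fun s => u s y i) t) x) t :=
      HasDerivAt.fun_sum fun i _ => dt_pd_comm (f := fun s y => u s y i) hG (hui i) ht i x
    have h2 : HasDerivAt (fun s => ∑ i, pd i (fun y => u s y i) x) 0 t := by
      refine (hasDerivAt_const t (0 : ℝ)).congr_of_eventuallyEq ?_
      filter_upwards [hG.mem_nhds ht] with s hs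
      exact hu.divfree s hs x
    exact h1.unique h2
  have hlap : ∀ i, SP (lap (fun y => u t y i)) := fun i => SP.lap (hsp i)
  have hconv : ∀ i, SP (conv (fun i y => u t y i) i) := sp_conv hsp
  have hpds : ∀ {f g : V → ℝ}, SP f → SP g → ∀ (j : Fin 3) (y : V),
      pd j (fun y => f y - g y) y = pd j f y - pd j g y := by
    intro f g hf hg j y
    unfold pd
    rw [fderiv_fun_sub (hf.diff y) (hg.diff y)]
    rfl
  have hneg : ∀ {f g : V → ℝ}, SP f → SP g → SP (fun y => f y - g y) := by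
    intro f g hf hg
    refine ⟨hf.smooth.sub hg.smooth, fun j y => ?_⟩
    show f _ - g _ = _
    rw [hf.per j y, hg.per j y]
  have h3 : ∀ i, pd i (fun y => deriv (fun s => u s y i) t) x
      = pd i (lap (fun y => u t y i)) x - pd i (pd i (p t)) x
        - pd i (conv (fun i y => u t y i) i) x := by
    intro i
    rw [hmom i, hpds (hneg (hlap i) (hp.pd i)) (hconv i), hpds (hlap i) (hp.pd i)]
  simp_rw [h3] at hzero
  rw [Finset.sum_sub_distrib, Finset.sum_sub_distrib, div_lap hsp hdiv] at hzero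
  -- the convection term
  have h4 : ∑ i, pd i (conv (fun i y => u t y i) i) x = ddq (u t) x := by
    unfold ddq
    refine Finset.sum_congr rfl fun i _ => ?_
    have e1 : ∀ j, SP (pd j (fun y => u t y i * u t y j)) := fun j => ((hsp i).mul (hsp j)).pd j
    rw [← pd_sum (fun j _ => e1 j) i x]
    congr 1
    funext y
    have e2 : ∀ j, pd j (fun y => u t y i * u t y j) y
        = u t y i * pd j (fun y => u t y j) y + u t y j * pd j (fun y => u t y i) y := by
      intro j
      rw [pd_mul (hsp i) (hsp j)]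
      ring
    simp_rw [e2]
    rw [Finset.sum_add_distrib, ← Finset.mul_sum, hdiv y]
    unfold conv
    ring
  rw [h4] at hzero
  have h5 : lap (p t) x = ∑ i, pd i (pd i (p t)) x := rfl
  rw [h5]
  linarith

end Pool.Agent.Y153.NS
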